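import Mathlib.RingTheory.Polynomial.Resultant.Basic
import Mathlib.RingTheory.Polynomial.GaussLemma
import Pool.Agent.MP_c8dfda_nt.kp.Spec3
import Pool.Agent.MP_c8dfda_nt.kp.RATIO
import Pool.Agent.MP_c8dfda_nt.kp.DROP2
import Pool.Agent.MP_c8dfda_nt.kp.VAL2
import Pool.Agent.MP_c8dfda_nt.kp.ROOTH
import Pool.Agent.MP_c8dfda_nt.kp.TOP2
import Pool.Agent.MP_c8dfda_nt.kp.SEQ
import Pool.Agent.MP_c8dfda_nt.kp.SMALL

-- ======== part 0: row GAM
section Part0

/-! Row GAM: the limit of a thin sequence on a disc. -/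

open Polynomial Filter Real
open scoped Topology

noncomputable section

namespace Pool.Agent.KSP

namespace GAM

variable {K : Type} [Field K] (W : Md K)

theorem pair (hp : ∀ u : W.V, 0 ≤ W.B u u) (r a : W.V) (b : ℕ → W.V) (ε η : ℕ → ℝ)
    (hη : Tendsto η atTop (𝓝 0)) (ha : W.B a a ≤ 1) (hb : ∀ n, W.B (b n) (b n) ≤ 1)
    (hab : ∀ n, W.B a (b n) = 1 - η n) (hr : ∀ n, W.B r (b n) = 1 - ε n) :
    Tendsto ε atTop (𝓝 (1 - W.B r a)) := by
  have key : ∀ n, (ε n - (1 - W.B r a)) ^ 2 ≤ W.B r r * (2 * η n) := fun n => by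
    have h1 := W.cs hp r (a - b n)
    have h2 : W.B (a - b n) (a - b n) ≤ 2 * η n := by
      rw [W.B_sub_self, hab]; linarith [hb n]
    rw [map_sub, hr] at h1
    calc (ε n - (1 - W.B r a)) ^ 2 = (W.B r a - (1 - ε n)) ^ 2 := by ring
      _ ≤ _ := h1
      _ ≤ _ := mul_le_mul_of_nonneg_left h2 (hp r)
  have t2 : Tendsto (fun n => √(W.B r r * (2 * η n))) atTop (𝓝 0) := by
    simpa using ((hη.const_mul 2).const_mul (W.B r r)).sqrt
  exact tendsto_sub_nhds_zero_iff.1 (squeeze_zero_norm (fun n => abs_le_sqrt (key n)) t2)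

end GAM

theorem gam (h1 : S_PENV) (h2 : S_PSD) (h3 : S_GAL) : S_GAM := by
  intro K ι _ _ _ W N β s h H hH a ha
  have hZ := h.fam.ZZ_pos
  choose p hp using fun n => h1 K W (H n) (hH.1 n)
  have hD : ∀ n, (0 : ℝ) < dg (H n) := fun n => Nat.cast_pos.2 (hH.1 n)
  let b : ℕ → W.V := fun n => ((dg (H n) : ℝ))⁻¹ • W.rt (W.ev (H n)) (p n)
  have hav : ∀ c, W.In c → ∀ n, W.B (W.av c) (b n) =
      1 - max 0 (log (W.gn c (W.ev (H n)))) / dg (H n) := fun c hc n => by
    have e1 := (h3 K W).2.2.1 (W.evL (H n)) (p n) (hp n).inv c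
    rw [W.up_evL] at e1
    have := (hD n).ne'
    simp only [b, map_smul, smul_eq_mul]
    rw [e1, (hp n).ins c hc]
    field_simp
  refine GAM.pair W (h2 K W) _ _ b _ (fun n => hh N (H n) / dg (H n) / ZZ N) ?_ h.sq.le
    (fun n => ?_) (fun n => ?_) (hav a ha)
  · simpa using hH.2.div_const (ZZ N)
  · have e := (hp n).sq
    have := hD n
    simp only [b, map_smul, LinearMap.smul_apply, smul_eq_mul]
    rw [← mul_assoc, ← mul_inv, inv_mul_le_iff₀ (by positivity)]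
    linarith
  · have h0 : H n ≠ 0 := fun e => by simpa [e] using hH.1 n
    have e : ∀ i, zz (N i) / ZZ N * W.B (b n) (W.av (β i, s i)) =
        zz (N i) / ZZ N - lp (N i) (H n) / dg (H n) / ZZ N := fun i => by
      have e2 : lp (N i) (H n) = zz (N i) * max 0 (log (W.gn (β i, s i) (W.ev (H n)))) := by
        rw [lp, h.rel i _ h0, mul_max_of_nonneg _ _ (h.fam.inf i).le, mul_zero]
      rw [W.B_symm, hav _ (h.ins i), e2]
      ring
    rw [W.B_symm, W.B_vec]
    simp only [e]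
    rw [Finset.sum_sub_distrib, h.sum_one, hh, Finset.sum_div, Finset.sum_div]

end Pool.Agent.KSP

end

end Part0

-- ======== part 1: row GLIN
section Part1

/-! Polynomial maps of the plane: the pairing just outside a member of the family. -/

open Polynomial Filter Real
open scoped Topology

noncomputable section

namespace Pool.Agent.KSP

namespace GLIN

variable {K : Type} [Field K] (W : Md K)

/-- the kernel inside the unit disc -/
theorem kk_eq {β θ : W.E} {τ t : ℝ} (hβ : W.n β ≤ exp 1) (hθ : W.n θ ≤ exp 1) (hτ : τ ≤ 1)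
    (ht : t ≤ 1) : log (max (W.n (β - θ)) (exp t)) ≤ 1 ∧
      W.kk (β, τ) (θ, t) = 1 - max (log (max (W.n (β - θ)) (exp t))) τ := by
  have h1 : W.n (β - θ) ≤ exp 1 := by
    have := W.na.1 β (-θ)
    rw [← sub_eq_add_neg, W.n.map_neg] at this
    exact this.trans (max_le hβ hθ)
  have hm : 0 < max (W.n (β - θ)) (exp t) := (exp_pos t).trans_le (le_max_right _ _)
  have h2 : log (max (W.n (β - θ)) (exp t)) ≤ 1 :=
    (log_le_iff_le_exp hm).2 (max_le h1 (exp_le_exp.2 ht))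
  refine ⟨h2, ?_⟩
  have h3 : max (W.n (β - θ)) (max (exp τ) (exp t)) =
      exp (max (log (max (W.n (β - θ)) (exp t))) τ) := by
    rw [exp_monotone.map_max, exp_log hm, max_comm (exp τ), max_assoc]
  show max 0 (1 - log (max (W.n (β - θ)) (max (exp τ) (exp t)))) = _
  rw [h3, log_exp]
  exact max_eq_right (sub_nonneg.2 (max_le h2 hτ))

/-- sums of the functions `1 - max a τ` near a point -/
theorem loc (S : Multiset ℝ) (s : ℝ) : ∃ ε : ℝ, 0 < ε ∧ ∀ τ, s ≤ τ → τ ≤ s + ε →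
    (S.map fun a => 1 - max a τ).sum =
      (S.map fun a => 1 - max a s).sum - (S.countP (· ≤ s) : ℝ) * (τ - s) := by
  induction S using Multiset.induction_on with
  | empty => exact ⟨1, one_pos, fun τ _ _ => by simp⟩
  | cons a S ih =>
    obtain ⟨ε, hε, h⟩ := ih
    by_cases ha : a ≤ s
    · refine ⟨ε, hε, fun τ h1 h2 => ?_⟩
      rw [Multiset.map_cons, Multiset.map_cons, Multiset.sum_cons, Multiset.sum_cons, h τ h1 h2,
        Multiset.countP_cons_of_pos (p := (· ≤ s)) _ ha, max_eq_right ha,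
        max_eq_right (ha.trans h1)]
      push_cast
      ring
    · refine ⟨min ε (a - s), lt_min hε (sub_pos.2 (not_le.1 ha)), fun τ h1 h2 => ?_⟩
      have h3 : τ ≤ a := by linarith [min_le_right ε (a - s)]
      rw [Multiset.map_cons, Multiset.map_cons, Multiset.sum_cons, Multiset.sum_cons,
        h τ h1 (by linarith [min_le_left ε (a - s)]),
        Multiset.countP_cons_of_neg (p := (· ≤ s)) _ ha, max_eq_left (not_le.1 ha).le,
        max_eq_left h3]
      ring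

theorem anti (S : Multiset ℝ) {s τ : ℝ} (h : s ≤ τ) :
    (S.map fun a => 1 - max a τ).sum ≤ (S.map fun a => 1 - max a s).sum :=
  Multiset.sum_map_le_sum_map _ _ fun _ _ => sub_le_sub_left (max_le_max_left _ h) _

end GLIN

theorem glin (h1 : S_GAL) : S_GLIN := by
  intro K ι _ _ _ W N β s hS i
  classical
  have hw : ∀ l, 0 < zz (N l) / ZZ N := fun l => div_pos (hS.fam.inf l) hS.fam.ZZ_pos
  have hd : ∀ l, (0 : ℝ) < ((minpoly W.L (β l)).natDegree : ℝ)⁻¹ := fun l =>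
    inv_pos.2 (Nat.cast_pos.2 ((h1 K W).1 (β l)).1)
  have hr : ∀ l, ∀ θ ∈ (W.up (minpoly W.L (β l))).roots, W.n θ ≤ exp 1 := fun l θ hθ => by
    obtain ⟨σ, rfl⟩ := (((h1 K W).1 (β l)).2.2.2 θ).1 hθ
    rw [W.conj]
    exact (hS.ins l).1
  set S : ι → Multiset ℝ := fun l => (W.up (minpoly W.L (β l))).roots.map fun θ =>
    log (max (W.n (β i - θ)) (exp (s l))) with hSd
  have hle : ∀ l, ∀ a ∈ S l, a ≤ 1 := fun l a ha => by
    obtain ⟨θ, hθ, rfl⟩ := Multiset.mem_map.1 ha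
    exact (GLIN.kk_eq W (hS.ins i).1 (hr l θ hθ) le_rfl (hS.ins l).2).1
  have hB : ∀ τ : ℝ, τ ≤ 1 → W.B (W.av (β i, τ)) (W.vec N β s) = ∑ l, zz (N l) / ZZ N *
      (((minpoly W.L (β l)).natDegree : ℝ)⁻¹ * ((S l).map fun a => 1 - max a τ).sum) := by
    intro τ hτ
    rw [W.B_av_vec h1, W.B_vec]
    refine Finset.sum_congr rfl fun l _ => ?_
    rw [W.B_sg_av, hSd, Multiset.map_map]
    refine congrArg _ (congrArg _ (congrArg _ (Multiset.map_congr rfl fun θ hθ => ?_)))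
    exact (GLIN.kk_eq W (hS.ins i).1 (hr l θ hθ) hτ (hS.ins l).2).2
  have hone := hS.one i
  rw [hB (s i) (hS.ins i).2] at hone
  have hlt : (s i : ℝ) < 1 := by
    refine lt_of_le_of_ne (hS.ins i).2 fun h => ?_
    rw [Finset.sum_eq_zero] at hone
    · exact zero_ne_one hone
    intro l _
    rw [Multiset.sum_eq_zero, mul_zero, mul_zero]
    intro x hx
    obtain ⟨a, ha, rfl⟩ := Multiset.mem_map.1 hx
    rw [h, max_eq_right (hle l a ha), sub_self]
  choose ε hε hloc using fun l => GLIN.loc (S l) (s i)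
  obtain ⟨ε₀, hε₀, hε1, hε2⟩ : ∃ ε₀ : ℝ, 0 < ε₀ ∧ s i + ε₀ ≤ 1 ∧ ∀ l, ε₀ ≤ ε l := by
    obtain ⟨l₀, -, hl₀⟩ := Finset.exists_min_image Finset.univ ε ⟨i, Finset.mem_univ i⟩
    refine ⟨min (1 - s i) (ε l₀), lt_min (sub_pos.2 hlt) (hε l₀), ?_, fun l =>
      (min_le_right _ _).trans (hl₀ l (Finset.mem_univ l))⟩
    linarith [min_le_left (1 - (s i : ℝ)) (ε l₀)]
  set c : ℝ := ∑ l, zz (N l) / ZZ N * (((minpoly W.L (β l)).natDegree : ℝ)⁻¹ *
    ((S l).countP (· ≤ (s i : ℝ)) : ℝ)) with hc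
  have hc0 : 0 < c := by
    refine Finset.sum_pos' (fun l _ => mul_nonneg (hw l).le (mul_nonneg (hd l).le
      (Nat.cast_nonneg _))) ⟨i, Finset.mem_univ i, mul_pos (hw i) (mul_pos (hd i) ?_)⟩
    refine Nat.cast_pos.2 (Multiset.countP_pos.2 ⟨s i, Multiset.mem_map.2 ⟨β i,
      (((h1 K W).1 (β i)).2.2.2 _).2 ⟨AlgEquiv.refl, rfl⟩, ?_⟩, le_rfl⟩)
    rw [sub_self, map_zero, max_eq_right (exp_pos _).le, log_exp]
  have hlin : ∀ τ : ℝ, s i ≤ τ → τ ≤ s i + ε₀ →
      1 - W.B (W.av (β i, τ)) (W.vec N β s) = c * (τ - s i) := fun τ h2 h3 => by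
    refine (congrArg₂ (· - ·) hone.symm (hB τ (h3.trans hε1))).trans ?_
    rw [hc, Finset.sum_mul, ← Finset.sum_sub_distrib]
    refine Finset.sum_congr rfl fun l _ => ?_
    rw [hloc l τ h2 (by linarith [hε2 l])]
    ring
  refine ⟨hlt, ⟨c, ε₀, hc0, hε₀, hε1, hlin⟩, fun τ h2 h3 => ?_⟩
  have h4 : s i < min τ (s i + ε₀) := lt_min h2 (by linarith)
  have h5 := hlin _ h4.le (min_le_right _ _)
  have h6 : W.B (W.av (β i, τ)) (W.vec N β s) ≤
      W.B (W.av (β i, min τ (s i + ε₀))) (W.vec N β s) := by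
    rw [hB τ h3, hB _ ((min_le_left _ _).trans h3)]
    exact Finset.sum_le_sum fun l _ => mul_le_mul_of_nonneg_left
      (mul_le_mul_of_nonneg_left (GLIN.anti _ (min_le_left _ _)) (hd l).le) (hw l).le
  have h7 := mul_pos hc0 (sub_pos.2 h4)
  linarith

end Pool.Agent.KSP

end

end Part1

-- ======== part 2: row SL
section Part2

/-! Thin annuli. -/

open Polynomial Filter Real
open scoped Topology

noncomputable section

namespace Pool.Agent.KSP

namespace SL

theorem gap {A : Type} (m : Multiset A) (r : A → ℝ) (s : ℝ) :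
    ∃ ε : ℝ, 0 < ε ∧ ∀ θ ∈ m, exp s < r θ → exp (s + ε) < r θ := by
  induction m using Multiset.induction_on with
  | empty => exact ⟨1, one_pos, by simp⟩
  | cons a m ih =>
    obtain ⟨ε, h0, h1⟩ := ih
    by_cases h : exp s < r a
    · have h2 := (exp_pos s).trans h
      have h3 := (lt_log_iff_exp_lt h2).2 h
      refine ⟨min ε ((log (r a) - s) / 2), lt_min h0 (by linarith), fun θ k k' => ?_⟩
      rcases Multiset.mem_cons.1 k with rfl | k
      · rw [← lt_log_iff_exp_lt h2]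
        linarith [min_le_right ε ((log (r θ) - s) / 2)]
      · exact (exp_le_exp.2 (by linarith [min_le_left ε ((log (r a) - s) / 2)])).trans_lt
          (h1 θ k k')
    · refine ⟨ε, h0, fun θ k k' => ?_⟩
      rcases Multiset.mem_cons.1 k with rfl | k
      exacts [absurd k' h, h1 θ k k']

open Classical in
theorem prod_eq {A : Type} (m : Multiset A) (r : A → ℝ) {s τ : ℝ} (h : s < τ)
    (H : ∀ θ ∈ m, r θ ≤ exp s ∨ exp τ < r θ) : (m.map fun θ => max (exp τ) (r θ)).prod =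
      (m.map fun θ => max (exp s) (r θ)).prod *
        exp (τ - s) ^ (m.filter fun θ => r θ ≤ exp s).card := by
  have h1 := exp_lt_exp.2 h
  induction m using Multiset.induction_on with
  | empty => simp
  | cons a m ih =>
    rw [Multiset.map_cons, Multiset.map_cons, Multiset.prod_cons, Multiset.prod_cons,
      ih fun θ k => H θ (Multiset.mem_cons_of_mem k)]
    rcases H a (Multiset.mem_cons_self a m) with k | k
    · rw [Multiset.filter_cons_of_pos (p := fun θ => r θ ≤ exp s) _ k, Multiset.card_cons,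
        max_eq_left k, max_eq_left (k.trans h1.le), pow_succ,
        show exp τ = exp s * exp (τ - s) by rw [← exp_add, add_sub_cancel]]
      ring
    · rw [Multiset.filter_cons_of_neg (p := fun θ => r θ ≤ exp s) _ (not_le.2 (h1.trans k)),
        max_eq_right k.le, max_eq_right (h1.trans k).le, mul_assoc]

variable {A : Type} [Field A] {n : AbsoluteValue A ℝ} (ζ : Pt n) (β θ : A)

theorem le_max : ζ.f (X - C θ) ≤ max (ζ.f (X - C β)) (n (β - θ)) := by
  rw [← ζ.cst, show X - C θ = X - C β + C (β - θ) by rw [C_sub]; ring]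
  exact ζ.add _ _

theorem eq_max (h : n (β - θ) ≠ ζ.f (X - C β)) :
    ζ.f (X - C θ) = max (ζ.f (X - C β)) (n (β - θ)) := by
  rcases h.lt_or_gt with h | h
  · rw [max_eq_left h.le]
    refine ζ.eq_of_sub_lt ?_
    rwa [show X - C β - (X - C θ) = -C (β - θ) by rw [C_sub]; ring, ζ.neg, ζ.cst]
  · rw [max_eq_right h.le, ← ζ.cst]
    refine ζ.eq_of_sub_lt ?_
    rwa [show C (β - θ) - (X - C θ) = -(X - C β) by rw [C_sub]; ring, ζ.neg, ζ.cst]

end SL

open SL in
theorem sl : S_SL := by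
  intro K _ _ W
  refine ⟨fun ζ β τ f h => ?_, fun β s f hf => ?_⟩
  · rw [ζ.roots, W.gn_roots]
    exact mul_le_mul_of_nonneg_left (Multiset.prod_map_le_prod_map₀ _ _ (fun θ _ => ζ.nn _)
      fun θ _ => (le_max ζ β θ).trans (max_le_max h le_rfl)) (W.n.nonneg _)
  obtain ⟨ε, h0, h1⟩ := gap f.roots (fun θ => W.n (β - θ)) s
  refine ⟨ε, h0, fun τ k1 k2 => ?_⟩
  have k3 := exp_lt_exp.2 k1
  have H : ∀ θ ∈ f.roots, W.n (β - θ) ≤ exp s ∨ exp τ < W.n (β - θ) := fun θ k =>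
    (le_or_gt _ _).imp_right fun k' => (exp_le_exp.2 k2).trans_lt (h1 θ k k')
  have H' : ∀ θ ∈ f.roots, W.n (β - θ) ≠ exp τ := fun θ k =>
    (H θ k).elim (fun k' => (k'.trans_lt k3).ne) fun k' => k'.ne'
  refine ⟨congrArg _ (Multiset.filter_congr fun θ k => ⟨fun k' => (H θ k).resolve_right
    (not_lt.2 k'), fun k' => k'.trans k3.le⟩), H', ?_, fun ζ k => ?_⟩
  · have e : W.gn (β, τ) f = W.gn (β, s) f * exp (τ - s) ^ W.kp (β, s) f := by
      rw [W.gn_roots, W.gn_roots, prod_eq _ _ k1 H, mul_assoc]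
      rfl
    rw [e, log_mul ((W.gn _).pos hf).ne' (pow_pos (exp_pos _) _).ne', log_pow, log_exp]
  · rw [ζ.roots, W.gn_roots]
    refine congrArg _ (congrArg _ (Multiset.map_congr rfl fun θ k' => ?_))
    rw [eq_max ζ β θ (k ▸ H' θ k'), k]

end Pool.Agent.KSP

end

end Part2

-- ======== part 3: row LOC
section Part3

/-! One polynomial locates a point near a disc. -/

open Polynomial Filter Real
open scoped Topology

noncomputable section

namespace Pool.Agent.KSP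

namespace LOC

variable {K : Type} [Field K] (W : Md K)

/-- the conjugate of a point -/
def cj (ζ : Pt W.n) (σ : W.E ≃ₐ[W.L] W.E) : Pt W.n where
  f := ζ.f.comp (mapRingHom (σ : W.E →+* W.E)).toMonoidWithZeroHom
  nn p := ζ.nn _
  add p q := by
    show ζ.f ((p + q).map _) ≤ max (ζ.f (p.map _)) (ζ.f (q.map _))
    rw [Polynomial.map_add]
    exact ζ.add _ _
  cst γ := by
    show ζ.f ((C γ).map _) = W.n γ
    rw [map_C, ζ.cst]
    exact W.conj σ γ

theorem cj_f (ζ : Pt W.n) (σ : W.E ≃ₐ[W.L] W.E) (p : W.E[X]) :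
    (cj W ζ σ).f p = ζ.f (p.map (σ : W.E →+* W.E)) := rfl

theorem cj_ev (ζ : Pt W.n) (σ : W.E ≃ₐ[W.L] W.E) (φ : R K) :
    (cj W ζ σ).f (W.ev φ) = ζ.f (W.ev φ) := by
  rw [cj_f, ← W.up_evL, Md.up, Polynomial.map_map]
  congr 2
  ext a
  simp

theorem near (ζ : Pt W.n) {P : W.E[X]} (hm : P.Monic) (h0 : P.roots ≠ 0) {s ε c : ℝ} (hε : 0 ≤ ε)
    (hc : ∀ θ ∈ P.roots, W.gn (θ, s) P = c) (hζ : ζ.f P ≤ exp ε * c) :
    ∃ θ ∈ P.roots, ζ.f (X - C θ) ≤ exp (s + ε) := by
  by_contra hcon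
  push Not at hcon
  obtain ⟨θ, hθ, hmin⟩ := Multiset.exists_min_image (fun θ => ζ.f (X - C θ)) h0
  have h1 := hc θ hθ
  have h2 := hcon θ hθ
  obtain ⟨t, ht⟩ := Multiset.exists_cons_of_mem hθ
  rw [W.gn_roots, hm.leadingCoeff, map_one, one_mul, ht, Multiset.map_cons, Multiset.prod_cons,
    sub_self, map_zero, max_eq_left (exp_pos _).le] at h1
  rw [ζ.roots, hm.leadingCoeff, map_one, one_mul, ht, Multiset.map_cons, Multiset.prod_cons,
    ← h1, ← mul_assoc, ← exp_add, add_comm ε] at hζ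
  have hQ : 0 < (t.map fun β => max (exp s) (W.n (θ - β))).prod :=
    Multiset.prod_pos fun a ha => by
      obtain ⟨β, -, rfl⟩ := Multiset.mem_map.1 ha
      exact lt_max_of_lt_left (exp_pos _)
  have hle : (t.map fun β => max (exp s) (W.n (θ - β))).prod ≤
      (t.map fun β => ζ.f (X - C β)).prod := by
    refine Multiset.prod_map_le_prod_map₀ _ _ (fun β _ => le_max_of_le_left (exp_pos _).le)
      fun β hβ => ?_
    have hβ' : β ∈ P.roots := ht ▸ Multiset.mem_cons_of_mem hβ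
    refine max_le ((exp_le_exp.2 (le_add_of_nonneg_right hε)).trans (hcon β hβ').le) ?_
    have h3 := ζ.sub (X - C β) (X - C θ)
    rw [sub_sub_sub_cancel_left, ← C_sub, ζ.cst] at h3
    exact h3.trans (max_le le_rfl (hmin β hβ'))
  exact absurd hζ (not_le.2 ((mul_lt_mul_of_pos_right h2 hQ).trans_le
    (mul_le_mul_of_nonneg_left hle (ζ.nn _))))

theorem appr (U : W.L[X]) (k : ℕ) : ∃ φ : R K, ∀ ζ : Pt W.n, ζ.f X ≤ exp 1 →
    ζ.f (C (W.x ^ k) * W.up U - W.ev φ) ≤ exp U.natDegree := by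
  choose p hp using fun j => W.apx (W.ξ ^ k * U.coeff j)
  refine ⟨∑ j ∈ Finset.range (U.natDegree + 1), aeval (xx 0) (p j) * xx 1 ^ j, fun ζ hζ => ?_⟩
  have h1 : C (W.x ^ k) * W.up U - W.ev (∑ j ∈ Finset.range (U.natDegree + 1),
      aeval (xx 0) (p j) * xx 1 ^ j) = ∑ j ∈ Finset.range (U.natDegree + 1),
      C (algebraMap W.L W.E (W.ξ ^ k * U.coeff j - aeval W.ξ (p j))) * X ^ j := by
    rw [congrArg W.up U.as_sum_range_C_mul_X_pow, Md.up, Polynomial.map_sum, map_sum,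
      Finset.mul_sum, ← Finset.sum_sub_distrib]
    refine Finset.sum_congr rfl fun j _ => ?_
    rw [map_mul, map_pow W.ev, evA_xx1, ← aeval_algHom_apply, evA_xx0, ← algebraMap_eq,
      aeval_algebraMap_apply, Md.x, aeval_algebraMap_apply]
    simp only [Polynomial.map_mul, Polynomial.map_pow, map_C, map_X, map_sub, map_mul, map_pow,
      algebraMap_eq]
    ring
  rw [h1]
  refine ζ.sum_le _ _ (exp_pos _).le fun j hj => ?_
  have hj' : (j : ℝ) ≤ U.natDegree := Nat.cast_le.2 (Nat.lt_succ_iff.1 (Finset.mem_range.1 hj))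
  rw [map_mul, map_pow, ζ.cst]
  calc _ ≤ 1 * exp 1 ^ j := mul_le_mul (hp j).le (pow_le_pow_left₀ (ζ.nn _) hζ _)
        (pow_nonneg (ζ.nn _) _) zero_le_one
    _ ≤ _ := by rw [one_mul, ← exp_nat_mul, mul_one]; exact exp_le_exp.2 hj'

end LOC

theorem loc (h1 : S_GAL) : S_LOC := by
  classical
  intro K _ _ W β s hin
  obtain ⟨-, -, hcard, hroot⟩ := (h1 K W).1 β
  have hcj := (h1 K W).2.1 (minpoly W.L β)
  have hm : (W.up (minpoly W.L β)).Monic :=
    (minpoly.monic (Algebra.IsIntegral.isIntegral β)).map _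
  have hβ : β ∈ (W.up (minpoly W.L β)).roots := (hroot β).2 ⟨1, rfl⟩
  obtain ⟨k, hk⟩ := exists_nat_gt (((minpoly W.L β).natDegree : ℝ) - (minpoly W.L β).natDegree * s)
  obtain ⟨φ, hφ⟩ := LOC.appr W (minpoly W.L β) k
  generalize W.up (minpoly W.L β) = P at *
  generalize (minpoly W.L β).natDegree = d at *
  have hx : ∀ ζ : Pt W.n, ζ.f (C (W.x ^ k) * P) = exp k * ζ.f P := fun ζ => by
    rw [map_mul, ζ.cst, map_pow, W.n_x, ← exp_nat_mul, mul_one]
  have hX : (W.dp (β, s)).f X ≤ exp 1 := by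
    have := W.gn_X_sub_C (β, s) 0
    rw [C_0, sub_zero, sub_zero] at this
    rw [Md.dp_f, this]
    exact max_le (exp_le_exp.2 hin.2) hin.1
  have hP : exp (d * s) ≤ W.gn (β, s) P := by
    rw [W.gn_roots, hm.leadingCoeff, map_one, one_mul, exp_nat_mul, ← hcard,
      ← Multiset.prod_replicate, ← Multiset.map_const']
    exact Multiset.prod_map_le_prod_map₀ _ _ (fun _ _ => (exp_pos _).le) fun _ _ => le_max_left _ _
  have hbig : exp d < exp k * W.gn (β, s) P :=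
    calc exp d < exp k * exp (d * s) := by rw [← exp_add]; exact exp_lt_exp.2 (by linarith)
      _ ≤ _ := mul_le_mul_of_nonneg_left hP (exp_pos _).le
  have hg : W.gn (β, s) (W.ev φ) = exp k * W.gn (β, s) P :=
    ((W.dp (β, s)).eq_of_sub_lt ((hφ _ hX).trans_lt (by rw [hx]; exact hbig))).trans (hx _)
  refine ⟨φ, fun h => ?_, ?_, fun ζ ε hε hζ hle => ?_⟩
  · rw [h, map_zero, map_zero] at hg
    exact absurd ((exp_pos _).trans hbig) (hg ▸ lt_irrefl _)
  · by_contra hcon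
    rw [not_le, Nat.lt_one_iff, Md.kp, Multiset.card_eq_zero, Multiset.filter_eq_nil] at hcon
    have h2 : W.gn (β, s) (W.ev φ) = (W.ep β).f (W.ev φ) := by
      rw [W.gn_roots, Pt.roots]
      congr 2
      refine Multiset.map_congr rfl fun θ hθ => ?_
      rw [max_eq_right (not_le.1 (hcon θ hθ)).le, Md.ep_f, eval_sub, eval_X, eval_C]
    have h3 := (W.ep β).sub (C (W.x ^ k) * P) (C (W.x ^ k) * P - W.ev φ)
    rw [sub_sub_cancel, hx, W.ep_f β P, (mem_roots hm.ne_zero).1 hβ, map_zero, mul_zero, ← h2,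
      hg] at h3
    have h4 := hφ (W.ep β) (by rw [Md.ep_f, eval_X]; exact hin.1)
    exact absurd (h3.trans (max_le (exp_pos _).le h4)) (not_le.2 hbig)
  · have h3 := ζ.add (C (W.x ^ k) * P - W.ev φ) (W.ev φ)
    rw [sub_add_cancel, hx] at h3
    have h4 : exp k * ζ.f P ≤ exp k * (exp ε * W.gn (β, s) P) := by
      rw [mul_left_comm, ← hg]
      refine h3.trans (max_le ((hφ ζ hζ).trans (hbig.le.trans ?_)) hle)
      rw [← hg]
      exact le_mul_of_one_le_left ((W.gn _).nonneg _) (one_le_exp hε)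
    obtain ⟨θ, hθ, hn⟩ := LOC.near W ζ hm (fun h => by simp [h] at hβ) hε
      (c := W.gn (β, s) P) (fun θ hθ => by
        obtain ⟨σ, rfl⟩ := (hroot θ).1 hθ
        exact (hcj σ).2 β s) (le_of_mul_le_mul_left h4 (exp_pos _))
    obtain ⟨σ, rfl⟩ := (hroot θ).1 hθ
    refine ⟨LOC.cj W ζ σ, LOC.cj_ev W ζ σ, ?_⟩
    rw [LOC.cj_f, Polynomial.map_sub, map_X, map_C]
    exact hn

end Pool.Agent.KSP

end

end Part3

-- ======== part 4: row XZ
section Part4

/-! One polynomial forces the first coordinate to be generic. -/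

open Polynomial Filter Real
open scoped Topology

noncomputable section

namespace Pool.Agent.KSP

namespace XZ

variable {K A : Type} [Field K] [CommRing A] [Algebra K A]

/-- the homogeneous form of a polynomial -/
def hm (p : K[X]) : R K := ∑ j ∈ Finset.range (p.natDegree + 1),
  cc (p.coeff j) * (xx 1 ^ j * xx 0 ^ (p.natDegree - j))

theorem hom (f : R K →ₐ[K] A) {t : A} (h : f (xx 1) = t * f (xx 0)) (p : K[X]) :
    f (hm p) = aeval t p * f (xx 0) ^ p.natDegree := by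
  rw [hm, map_sum, aeval_eq_sum_range, Finset.sum_mul]
  refine Finset.sum_congr rfl fun j hj => ?_
  rw [map_mul, map_mul, map_pow, map_pow, h, mul_pow, mul_assoc,
    pow_mul_pow_sub _ (Nat.lt_succ_iff.1 (Finset.mem_range.1 hj)), Algebra.smul_def, mul_assoc,
    MvPolynomial.algHom_C]

theorem near [Nontrivial A] {v : AbsoluteValue A ℝ} (hv : NA K v) {a b : A} (ha : v a ≤ 1)
    (hb : v b ≤ 1) (p : K[X]) : v (aeval a p - aeval b p) ≤ v (a - b) := by
  induction p using Polynomial.induction_on with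
  | C c => simp
  | add p q hp hq =>
    rw [map_add, map_add, add_sub_add_comm]
    exact (hv.1 _ _).trans (max_le hp hq)
  | monomial n c h =>
    have e := hv.aeval_le le_rfl hb (C c * X ^ n)
    rw [one_pow] at e
    rw [pow_succ, ← mul_assoc, map_mul, map_mul (aeval b), aeval_X, aeval_X,
      show ∀ x y : A, x * a - y * b = (x - y) * a + y * (a - b) from fun x y => by ring]
    refine (hv.1 _ _).trans (max_le ?_ ?_) <;> rw [map_mul]
    · exact (mul_le_of_le_one_right (v.nonneg _) ha).trans h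
    · exact mul_le_of_le_one_left (v.nonneg _) e

end XZ

open XZ in
theorem xz (h1 : S_MODF) : S_XZ := by
  intro K _ _ W β s hin hs
  have hx : W.n W.x⁻¹ = (exp 1)⁻¹ := by rw [map_inv₀, W.n_x]
  have hγ : W.n (W.x⁻¹ * β) ≤ 1 := by
    rw [map_mul, hx, inv_mul_le_one₀ (exp_pos 1)]
    exact hin.1
  obtain ⟨p, hp, h⟩ := (h1 K W).2.2.1 _ hγ
  have hd : 1 ≤ p.natDegree := by
    by_contra h0
    have e := eq_C_of_natDegree_eq_zero (p := p) (by omega)
    rw [e, aeval_C, W.na.2 _ fun h => hp (by rw [e, h, C_0])] at h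
    exact lt_irrefl _ h
  refine ⟨hm p, p.natDegree, fun e => hp ?_, hd, ?_, fun η hη hz hl => ?_⟩
  · have := hom (MvPolynomial.aeval ![1, X] : R K →ₐ[K] K[X]) (t := X) (by simp) p
    simpa [e] using this.symm
  · have na : NA K (W.gn (β, s)) := ⟨W.gn_na _, fun c hc => by
      rw [Polynomial.algebraMap_apply, W.gn_C, W.na.2 c hc]⟩
    have e1 : W.gn (β, s) (C W.x⁻¹ * X - C (W.x⁻¹ * β)) < 1 := by
      rw [C_mul, ← mul_sub, map_mul, W.gn_C, W.gn_X_sub_C, sub_self, map_zero,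
        max_eq_left (exp_pos _).le, hx, inv_mul_lt_one₀ (exp_pos 1)]
      exact exp_lt_exp.2 hs
    have e2 : W.gn (β, s) (C (W.x⁻¹ * β)) ≤ 1 := by rwa [W.gn_C]
    have e3 : W.gn (β, s) (C W.x⁻¹ * X) ≤ 1 := by
      rw [← sub_add_cancel (C W.x⁻¹ * X) (C (W.x⁻¹ * β))]
      exact (na.1 _ _).trans (max_le e1.le e2)
    have e4 : W.gn (β, s) (aeval (C W.x⁻¹ * X) p) < 1 := by
      rw [← sub_add_cancel (aeval (C W.x⁻¹ * X) p) (aeval (C (W.x⁻¹ * β)) p)]
      refine (na.1 _ _).trans_lt (max_lt ((near na e3 e2 p).trans_lt e1) ?_)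
      rwa [show aeval (C (W.x⁻¹ * β)) p = C (aeval (W.x⁻¹ * β) p) from
        aeval_algebraMap_apply W.E[X] _ p, W.gn_C]
    have e5 : W.gn (β, s) (W.ev (hm p)) < exp p.natDegree := by
      have e : W.ev (xx 0) = C W.x := by simp [evA]
      rw [hom W.ev (t := C W.x⁻¹ * X) (by
          rw [e, mul_right_comm, ← C_mul, inv_mul_cancel₀ W.x_ne]
          simp [evA]), e, map_mul, map_pow, W.gn_C, W.n_x, ← exp_nat_mul, mul_one]
      exact mul_lt_of_lt_one_left (exp_pos _) e4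
    rcases ((W.gn (β, s)).nonneg (W.ev (hm p))).eq_or_lt with e | e
    · rw [← e, log_zero]
      exact_mod_cast hd
    · exact (log_lt_iff_lt_exp e).2 e5
  · by_contra hne
    obtain ⟨j, hj⟩ := exists_lg_xx hz
    obtain rfl : j = 1 := by
      fin_cases j
      exacts [absurd hj hne, rfl]
    have h0 := η.pos (io_ne (xx_ne (K := K) 0))
    have e1 : 1 < η (io (xx 1) / io (xx 0)) := by
      rw [map_div₀, one_lt_div h0, ← exp_lg η (xx_ne 0), ← exp_lg η (xx_ne 1), hj]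
      exact exp_lt_exp.2 ((lg_xx_le η 0).lt_of_ne hne)
    have e2 : io (hm p) = aeval (io (xx 1) / io (xx 0)) p * io (xx 0) ^ p.natDegree :=
      hom (IsScalarTower.toAlgHom K (R K) (M K)) (div_mul_cancel₀ _ (io_ne (xx_ne 0))).symm p
    rw [lg, e2, map_mul, hη.aeval_eq e1 hp, map_pow, ← mul_pow, map_div₀,
      div_mul_cancel₀ _ h0.ne', log_pow, ← hj] at hl
    exact lt_irrefl _ hl

end Pool.Agent.KSP

end

end Part4

-- ======== part 5: row JK
section Part5

/-! Row JK: the Jacobian on a sphere without roots. -/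

open Polynomial Filter Real
open scoped Topology

noncomputable section

namespace Pool.Agent.KSP

namespace JK

open JAC

variable {E : Type} [Field E] {n : AbsoluteValue E ℝ} (hn : IsNonarchimedean n)

/-- the slope of the norm -/
def Sl (F : E[X]) (k : ℕ) : Prop := gs hn (X * derivative F - C (k : E) * F) < gs hn F

theorem sl_mul {F G : E[X]} {k l : ℕ} (h : Sl hn F k) (h' : Sl hn G l) :
    Sl hn (F * G) (k + l) := by
  have pF := ((gs hn).nonneg _).trans_lt h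
  have pG := ((gs hn).nonneg _).trans_lt h'
  rw [Sl, show X * derivative (F * G) - C ((k + l : ℕ) : E) * (F * G) =
    (X * derivative F - C (k : E) * F) * G + F * (X * derivative G - C (l : E) * G) by
      rw [derivative_mul, Nat.cast_add, C_add]; ring, map_mul]
  refine KSkew.na_add_lt (gs_na _) ?_ ?_ <;> rw [map_mul]
  exacts [mul_lt_mul_of_pos_right h pG, mul_lt_mul_of_pos_left h' pF]

theorem sl_C {a : E} (ha : a ≠ 0) : Sl hn (C a) 0 := by
  simpa [Sl, gs_C] using ha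

theorem sl_one {γ δ : E} (h : n δ < n γ) : Sl hn (C γ * X + C δ) 1 := by
  rw [Sl, show X * derivative (C γ * X + C δ) - C ((1 : ℕ) : E) * (C γ * X + C δ) = C (-δ) by
    simp, gs_C, n.map_neg]
  exact h.trans_le ((congrArg n (by simp)).trans_le (co_le hn (C γ * X + C δ) 1))

theorem sl_zero {γ δ : E} (h : n γ < n δ) : Sl hn (C γ * X + C δ) 0 := by
  rw [Sl, show X * derivative (C γ * X + C δ) - C ((0 : ℕ) : E) * (C γ * X + C δ) = X * C γ by
    simp, map_mul, gs_X, one_mul, gs_C]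
  exact h.trans_le ((congrArg n (by simp)).trans_le (co_le hn (C γ * X + C δ) 0))

open Classical in
theorem sl_prod {γ β : E} {ρ : ℝ} (hγ : n γ = ρ) (m : Multiset E) (h : ∀ θ ∈ m, n (β - θ) ≠ ρ) :
    Sl hn ((m.map fun θ => X - C θ).prod.comp (C γ * X + C β))
      (m.filter fun θ => n (β - θ) ≤ ρ).card := by
  induction m using Multiset.induction_on with
  | empty => simpa using sl_C hn one_ne_zero
  | cons θ m ih =>
    have h1 := ih fun θ hθ => h θ (Multiset.mem_cons_of_mem hθ)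
    have e : (X - C θ).comp (C γ * X + C β) = C γ * X + C (β - θ) := by simp; ring
    rw [Multiset.map_cons, Multiset.prod_cons, mul_comp, e]
    rcases lt_or_gt_of_ne (h θ (Multiset.mem_cons_self _ _)) with k | k
    · rw [Multiset.filter_cons_of_pos (p := fun θ => n (β - θ) ≤ ρ) _ k.le, Multiset.card_cons,
        add_comm _ 1]
      exact sl_mul hn (sl_one hn (k.trans_eq hγ.symm)) h1
    · rw [Multiset.filter_cons_of_neg (p := fun θ => n (β - θ) ≤ ρ) _ k.not_ge]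
      simpa using sl_mul hn (sl_zero hn (hγ.trans_lt k)) h1

theorem mul_close {A B U V : E[X]} {r k : E} (h : gs hn (U - C r * A) < gs hn A)
    (h' : gs hn (V - C k * B) < gs hn B) (hr : n r ≤ 1) (hk : n k ≤ 1) :
    gs hn (U * V - C r * C k * (A * B)) < gs hn A * gs hn B := by
  have pA := ((gs hn).nonneg _).trans_lt h
  have pB := ((gs hn).nonneg _).trans_lt h'
  rw [show U * V - C r * C k * (A * B) = (U - C r * A) * (V - C k * B) +
    (C k * ((U - C r * A) * B) + C r * (A * (V - C k * B))) by ring]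
  refine KSkew.na_add_lt (gs_na _) ?_ (KSkew.na_add_lt (gs_na _) ?_ ?_) <;> rw [map_mul]
  · exact mul_lt_mul'' h h' ((gs hn).nonneg _) ((gs hn).nonneg _)
  · rw [gs_C]
    refine (mul_le_of_le_one_left ((gs hn).nonneg _) hk).trans_lt ?_
    rw [map_mul]
    exact mul_lt_mul_of_pos_right h pB
  · rw [gs_C]
    refine (mul_le_of_le_one_left ((gs hn).nonneg _) hr).trans_lt ?_
    rw [map_mul]
    exact mul_lt_mul_of_pos_left h' pA

end JK

open JAC JK in
theorem jk (h1 : S_MODF) : S_JK := by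
  intro K _ _ W β t a b ha hb ra rb hne
  obtain ⟨hv, hex, -, -⟩ := h1 K W
  obtain ⟨D, hDx, hDer⟩ := W.der
  obtain ⟨γ, hγ⟩ := hex t
  have hq : ∀ r : ℚ, r ≠ 0 → W.n r = 1 := fun r hr => by
    rw [← map_ratCast (algebraMap K W.E)]
    exact W.na.2 _ (Rat.cast_ne_zero.2 hr)
  have hT : ∀ φ : R K, W.gn (β, t) (W.ev φ) = gs W.na.1 (T W.x γ β φ) := fun φ => by
    rw [Md.gn, ← gs_comp W.na.1 _ hγ, ← T_eq]
  have hS : ∀ φ : R K, W.ev φ ≠ 0 → (∀ θ ∈ (W.ev φ).roots, W.n (β - θ) ≠ exp t) →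
      Sl W.na.1 (T W.x γ β φ) (W.kp (β, t) (W.ev φ)) := fun φ h0 h => by
    have := sl_mul W.na.1 (sl_C W.na.1 (leadingCoeff_ne_zero.2 h0)) (sl_prod W.na.1 hγ _ h)
    rwa [zero_add, ← C_comp (p := C γ * X + C β), ← mul_comp,
      ← (IsAlgClosed.splits (W.ev φ)).eq_prod_roots, ← T_eq] at this
  have sA := hS a ha ra
  have sB := hS b hb rb
  have key := T_jac W.x γ β D a b
  rw [show D W.x = W.x from hDx] at key
  simp only [hT] at hne ⊢
  generalize T W.x γ β a = A at *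
  generalize T W.x γ β b = B at *
  generalize W.kp (β, t) (W.ev a) = ka at *
  generalize W.kp (β, t) (W.ev b) = kb at *
  have pA := ((gs W.na.1).nonneg _).trans_lt sA
  have pB := ((gs W.na.1).nonneg _).trans_lt sB
  obtain ⟨r, hr, dA⟩ := lgd W.na.1 hq hDer hv ((gs W.na.1).pos_iff.1 pA)
  obtain ⟨q, hq', dB⟩ := lgd W.na.1 hq hDer hv ((gs W.na.1).pos_iff.1 pB)
  have h0 : r * kb - ka * q ≠ 0 := fun e => hne (by
    rw [hr, hq', log_exp, log_exp, mul_comm (q : ℝ)]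
    exact_mod_cast sub_eq_zero.1 e)
  have e : gs W.na.1 (C ((r * kb - ka * q : ℚ) : W.E) * (A * B)) = gs W.na.1 A * gs W.na.1 B := by
    rw [map_mul, gs_C, hq _ h0, one_mul, map_mul]
  have n4 : gs W.na.1 (X * (C (W.x * γ) * T W.x γ β (jac a b))) = gs W.na.1 A * gs W.na.1 B := by
    rw [← e]
    refine KSkew.na_eq_of_sub_lt (gs_na _) ?_
    rw [e, key, show C ((r * kb - ka * q : ℚ) : W.E) * (A * B) -
        X * (d1 D A * derivative B - derivative A * d1 D B) =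
      (X * derivative A * d1 D B - C (ka : W.E) * C (q : W.E) * (A * B)) -
        (d1 D A * (X * derivative B) - C (r : W.E) * C (kb : W.E) * (A * B)) by
      push_cast; rw [C_sub, C_mul, C_mul]; ring]
    exact KSkew.na_sub_lt (gs_na _) (mul_close _ sA dB (nat_le hq _) (rat_le hq _))
      (mul_close _ dA sB (rat_le hq _) (nat_le hq _))
  rw [map_mul, gs_X, one_mul, map_mul, gs_C, map_mul, W.n_x, hγ, ← exp_add] at n4
  have pO : gs W.na.1 (T W.x γ β (jac a b)) ≠ 0 := fun e => by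
    rw [e, mul_zero] at n4
    exact (mul_pos pA pB).ne n4
  refine ⟨fun e => pO (by rw [e, map_zero, map_zero]), ?_⟩
  have n5 := congrArg log n4
  rw [log_mul (exp_pos _).ne' pO, log_exp, log_mul pA.ne' pB.ne'] at n5
  linarith

end Pool.Agent.KSP

end

end Part5

-- ======== part 6: row NEAR
section Part6

/-! Polynomial maps of the plane: absolute values near a disc. -/

open Polynomial Filter Real
open scoped Topology

noncomputable section

namespace Pool.Agent.KSP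

namespace NEAR

theorem small {z A d l ε' : ℝ} (hz : 0 < z) (hA : A < d) (hε : 0 < ε') :
    ∃ ε : ℝ, 0 < ε ∧ ε ≤ z / 2 ∧ z * A + ε < d * (z - ε) ∧ ε * (|l| + 1) ≤ z / 2 * ε' := by
  have c1 : ∀ᶠ ε in 𝓝 (0 : ℝ), ε < z / 2 := gt_mem_nhds (by linarith)
  have c2 : ∀ᶠ ε in 𝓝 (0 : ℝ), z * A + ε < d * (z - ε) :=
    ContinuousAt.eventually_lt (by fun_prop) (by fun_prop) (by nlinarith)
  have c3 : ∀ᶠ ε in 𝓝 (0 : ℝ), ε * (|l| + 1) < z / 2 * ε' :=
    ContinuousAt.eventually_lt (by fun_prop) (by fun_prop) (by rw [zero_mul]; positivity)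
  obtain ⟨ε, ⟨e1, e2, e3⟩, e0⟩ :=
    (((c1.and (c2.and c3)).filter_mono nhdsWithin_le_nhds).and
      (self_mem_nhdsWithin (a := (0 : ℝ)) (s := Set.Ioi 0))).exists
  exact ⟨ε, e0, e1.le, e2, e3.le⟩

end NEAR

open Classical in
theorem near (h1 : S_SL) (h2 : S_LOC) (h3 : S_XZ) (h4 : S_ROOT) : S_NEAR := by
  intro K _ _ W ι _ N v β s z c ε₀ hz hIn s1 e0 hv hlim
  obtain ⟨ub, sl⟩ := h1 K W
  obtain ⟨φ₀, φ0, k1, loc⟩ := h2 K W β s hIn
  obtain ⟨ψ, d, ψ0, d1, hψ, xz⟩ := h3 K W β s hIn s1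
  have vx : lg v (xx 0) = z := by
    rw [hv _ (xx_ne 0), evA_xx0, W.gn_C, W.n_x, log_exp, mul_one]
  have k0 : (0 : ℝ) < W.kp (β, s) (W.ev φ₀) := by exact_mod_cast k1
  refine ⟨{xx 0, ψ, φ₀}, fun η => (z * lg η φ₀ - lg η (xx 0) * lg v φ₀) / W.kp (β, s) (W.ev φ₀),
    fun t ht => ?_, ⟨φ₀, φ0, k1⟩, fun φ hφ => ?_⟩
  · simp only [Finset.mem_insert, Finset.mem_singleton] at ht
    rcases ht with rfl | rfl | rfl
    exacts [xx_ne 0, ψ0, φ0]
  obtain ⟨ε₁, e1, sl1⟩ := sl β s _ (h4 K W φ hφ).1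
  obtain ⟨ε₂, e2, sl2⟩ := sl β s _ (h4 K W φ₀ φ0).1
  have e3 : 0 < min ε₀ (min ε₁ ε₂) := lt_min e0 (lt_min e1 e2)
  obtain ⟨ε, e4, e5, e6, e7⟩ := NEAR.small (l := log (W.gn (β, s) (W.ev φ₀))) hz hψ e3
  refine ⟨ε, e4, fun η hη hT H hH γ γ0 hf => ?_⟩
  have t1 := abs_le.1 (hT (xx 0) (by simp))
  have t2 := abs_le.1 (hT ψ (by simp))
  have t3 := abs_le.1 (hT φ₀ (by simp))
  rw [vx] at t1
  rw [hv ψ ψ0] at t2
  rw [hv φ₀ φ0] at t3
  have y0 : z / 2 ≤ lg η (xx 0) := by linarith [t1.1]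
  have y1 : lg η (xx 0) ≤ zz η := lg_xx_le η 0
  have z0 : 0 < zz η := by linarith
  have hy : lg η (xx 0) = zz η := xz η hη z0 (by
    have : (d : ℝ) * (z - ε) ≤ d * zz η :=
      mul_le_mul_of_nonneg_left (by linarith [t1.1]) (Nat.cast_nonneg d)
    linarith [t2.2])
  obtain ⟨ζ₀, hζ₀⟩ := W.univ η hη z0 hy
  replace hζ₀ : Rel W.x η ζ₀ := hζ₀
  have g0 : ∀ (τ : ℝ) (f : R K), f ≠ 0 → 0 < W.gn (β, τ) (W.ev f) := fun τ f hf =>
    (W.gn _).pos (h4 K W f hf).1
  obtain ⟨ζ, hζ, hX⟩ := loc ζ₀ _ e3.le (CORE.X_le z0 hζ₀) (by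
    obtain ⟨p, l⟩ := hζ₀ φ₀ φ0
    rw [← exp_log p, ← exp_log (g0 s φ₀ φ0), ← exp_add, exp_le_exp]
    refine le_of_mul_le_mul_left ?_ z0
    rw [← l, ← hy]
    generalize log (W.gn (β, s) (W.ev φ₀)) = l₀ at *
    have a1 : (z - lg η (xx 0)) * l₀ ≤ ε * |l₀| := (le_abs_self _).trans (by
      rw [abs_mul]
      exact mul_le_mul_of_nonneg_right (abs_le.2 ⟨by linarith [t1.2], by linarith [t1.1]⟩)
        (abs_nonneg _))
    have a2 := mul_le_mul_of_nonneg_right y0 e3.le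
    nlinarith [t3.2])
  have rel : Rel W.x η ζ := fun f hf => by
    have := hζ₀ f hf
    rwa [← hζ f] at this
  have key : ∀ τ, s ≤ τ → τ ≤ s + ε₀ → ζ.f (X - C β) ≤ exp τ → γ ≤ zz η * (c * (τ - s)) := by
    intro τ τ1 τ2 hτ
    refine ge_of_tendsto_of_frequently ((hlim τ τ1 τ2 H hH).const_mul (zz η)) (hf.mono fun j hj => ?_)
    have p : (0 : ℝ) < dg (H j) := Nat.cast_pos.2 (hH.1 j)
    have n0 := CORE.ne_of_dg (hH.1 j)
    have l := CORE.lp_eq z0 rel n0
    rw [eq_div_iff z0.ne'] at l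
    rw [← mul_div_assoc, le_div_iff₀ p]
    refine hj.trans ?_
    rw [← l, mul_comm]
    exact mul_le_mul_of_nonneg_left
      (max_le_max le_rfl (log_le_log (rel _ n0).1 (ub ζ β τ _ hτ))) z0.le
  have big : exp s < ζ.f (X - C β) := by
    by_contra h
    have := key s le_rfl (by linarith) (not_lt.1 h)
    rw [sub_self, mul_zero, mul_zero] at this
    exact this.not_gt γ0
  have p := (exp_pos s).trans big
  have τ1 : s < log (ζ.f (X - C β)) := (lt_log_iff_exp_lt p).2 big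
  have τ2 : log (ζ.f (X - C β)) ≤ s + min ε₀ (min ε₁ ε₂) := (log_le_iff_le_exp p).2 hX
  have hτ : ζ.f (X - C β) = exp (log (ζ.f (X - C β))) := (exp_log p).symm
  generalize log (ζ.f (X - C β)) = τ at τ1 τ2 hτ
  have m0 := min_le_left ε₀ (min ε₁ ε₂)
  have m1 := (min_le_right ε₀ (min ε₁ ε₂)).trans (min_le_left ε₁ ε₂)
  have m2 := (min_le_right ε₀ (min ε₁ ε₂)).trans (min_le_right ε₁ ε₂)
  obtain ⟨-, -, a1, a2⟩ := sl1 τ τ1 (by linarith)
  obtain ⟨-, -, b1, b2⟩ := sl2 τ τ1 (by linarith)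
  have l1 := (rel φ hφ).2
  have l2 := (rel φ₀ φ0).2
  rw [a2 ζ hτ, a1] at l1
  rw [b2 ζ hτ, b1] at l2
  have hρ : (z * lg η φ₀ - lg η (xx 0) * lg v φ₀) / W.kp (β, s) (W.ev φ₀) =
      z * (zz η * (τ - s)) := by
    rw [div_eq_iff k0.ne', l2, hy, hv φ₀ φ0]; ring
  have k := key τ τ1.le (by linarith) hτ.le
  refine ⟨?_, ?_⟩
  · simp only [hρ]
    nlinarith [mul_le_mul_of_nonneg_right k hz.le]
  · simp only [hρ]
    rw [l1, hy, hv φ hφ]; ring

end Pool.Agent.KSP

end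

end Part6

-- ======== part 7: row DIR
section Part7

/-! The outer tangent direction at a member of a standard family. -/

open Polynomial Filter Real
open scoped Topology

noncomputable section

namespace Pool.Agent.KSP

namespace DIR

theorem small {ε : ℝ} (h : 0 < ε) : ∀ᶠ n : ℕ in atTop, 1 / ((n : ℝ) + 1) ≤ ε :=
  tendsto_one_div_add_atTop_nhds_zero_nat.eventually (ge_mem_nhds h)

theorem aff {a b c d : ℝ}
    (h : ∀ᶠ n : ℕ in atTop, a + b * (1 / ((n : ℝ) + 1)) = c + d * (1 / ((n : ℝ) + 1))) :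
    a = c ∧ b = d := by
  have h1 : ∀ a b : ℝ, Tendsto (fun n : ℕ => a + b * (1 / ((n : ℝ) + 1))) atTop (𝓝 (a + b * 0)) :=
    fun a b => tendsto_const_nhds.add (tendsto_one_div_add_atTop_nhds_zero_nat.const_mul b)
  have e : a + b * 0 = c + d * 0 := tendsto_nhds_unique ((h1 a b).congr' h) (h1 c d)
  rw [mul_zero, mul_zero, add_zero, add_zero] at e
  obtain ⟨n, hn⟩ := h.exists
  rw [e] at hn
  exact ⟨e, mul_right_cancel₀ (by positivity) (add_left_cancel hn)⟩

variable {K : Type} [Field K] [CharZero K] (W : Md K)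

theorem exw (h6 : S_ROOT) (a : W.E × ℝ) {z : ℝ} (hz : 0 < z) :
    ∃ w : AV K, NA K w ∧ ∀ φ, φ ≠ 0 → lg w φ = z * log (W.gn a (W.ev φ)) := by
  have hp : ∀ φ : R K, φ ≠ 0 → 0 < W.gn a (W.ev φ) := fun φ h => (W.gn a).pos (h6 K W φ h).1
  refine exists_AV _ (fun p q hp' hq => ?_) (fun p q hp' hq hpq => ?_) fun c hc => ?_
  · rw [map_mul, map_mul, log_mul (hp p hp').ne' (hp q hq).ne', mul_add]
  · have := W.gn_na a (W.ev p) (W.ev q)
    rw [← map_add] at this
    rcases le_max_iff.1 this with h1 | h1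
    · exact (mul_le_mul_of_nonneg_left (log_le_log (hp _ hpq) h1) hz.le).trans (le_max_left _ _)
    · exact (mul_le_mul_of_nonneg_left (log_le_log (hp _ hpq) h1) hz.le).trans (le_max_right _ _)
  · rw [evA_cc, W.gn_C, W.na.2 c hc, log_one, mul_zero]

theorem sl (h3 : S_SL) (β : W.E) (s : ℝ) {f : W.E[X]} (hf : f ≠ 0) : ∀ᶠ n : ℕ in atTop,
    W.kp (β, s + 1 / ((n : ℝ) + 1)) f = W.kp (β, s) f ∧
    (∀ θ ∈ f.roots, W.n (β - θ) ≠ exp (s + 1 / ((n : ℝ) + 1))) ∧
    log (W.gn (β, s + 1 / ((n : ℝ) + 1)) f) =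
      log (W.gn (β, s) f) + W.kp (β, s) f * (1 / ((n : ℝ) + 1)) := by
  obtain ⟨ε, hε, h⟩ := (h3 K W).2 β s f hf
  filter_upwards [small hε] with n hn
  obtain ⟨a, b, c, -⟩ := h (s + 1 / ((n : ℝ) + 1)) (lt_add_of_pos_right _ (by positivity))
    (by linarith)
  exact ⟨a, b, by rw [c, add_sub_cancel_left]⟩

theorem jc (h3 : S_SL) (h4 : S_JK) (h6 : S_ROOT) (β : W.E) (s : ℚ) {a b : R K} (ha : a ≠ 0)
    (hb : b ≠ 0) (h : log (W.gn (β, s) (W.ev a)) * W.kp (β, s) (W.ev b) ≠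
      log (W.gn (β, s) (W.ev b)) * W.kp (β, s) (W.ev a)) :
    jac a b ≠ 0 ∧ log (W.gn (β, s) (W.ev (jac a b))) =
      log (W.gn (β, s) (W.ev a)) + log (W.gn (β, s) (W.ev b)) - (1 + s) ∧
      W.kp (β, s) (W.ev (jac a b)) + 1 = W.kp (β, s) (W.ev a) + W.kp (β, s) (W.ev b) := by
  have ha' := (h6 K W a ha).1
  have hb' := (h6 K W b hb).1
  have key : ∀ᶠ n : ℕ in atTop, jac a b ≠ 0 ∧
      log (W.gn (β, (s : ℝ) + 1 / ((n : ℝ) + 1)) (W.ev (jac a b))) =
        (log (W.gn (β, s) (W.ev a)) + log (W.gn (β, s) (W.ev b)) - (1 + s)) +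
          ((W.kp (β, s) (W.ev a) : ℝ) + W.kp (β, s) (W.ev b) - 1) * (1 / ((n : ℝ) + 1)) := by
    filter_upwards [sl W h3 β s ha', sl W h3 β s hb'] with n h1 h2
    have ht : ((s + 1 / ((n : ℚ) + 1) : ℚ) : ℝ) = s + 1 / ((n : ℝ) + 1) := by push_cast; rfl
    have k := h4 K W β (s + 1 / ((n : ℚ) + 1)) a b ha' hb'
    rw [ht] at k
    obtain ⟨j0, j1⟩ := k h1.2.1 h2.2.1 (by
      rw [h1.1, h2.1, h1.2.2, h2.2.2]
      exact fun e => h (by linear_combination e))
    refine ⟨j0, ?_⟩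
    rw [j1, h1.2.2, h2.2.2]
    ring
  obtain ⟨-, j0, -⟩ := key.exists
  have k := aff ((key.and (sl W h3 β s (h6 K W _ j0).1)).mono fun n hn =>
    hn.2.2.2.symm.trans hn.1.2)
  refine ⟨j0, k.1, ?_⟩
  have k2 : (W.kp (β, s) (W.ev (jac a b)) : ℝ) + 1 =
      W.kp (β, s) (W.ev a) + W.kp (β, s) (W.ev b) := by rw [k.2]; ring
  exact_mod_cast k2

end DIR

theorem dir (h1 : S_GAM) (h2 : S_GLIN) (h3 : S_SL) (h4 : S_JK) (h5 : S_NEAR) (h6 : S_ROOT) :
    S_DIR := by
  intro K ι _ _ _ W N β s hS i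
  have hz := hS.fam.inf i
  obtain ⟨hs1, ⟨c, ε₀, hc, hε, hle, hlin⟩, -⟩ := h2 K ι W N β s hS i
  have hlim : ∀ τ : ℝ, s i ≤ τ → τ ≤ s i + ε₀ → ∀ H : ℕ → R K, Thin N H →
      Tendsto (fun n => max 0 (log (W.gn (β i, τ) (W.ev (H n)))) / dg (H n)) atTop
        (𝓝 (c * (τ - s i))) := fun τ t1 t2 H hH => by
    rw [← hlin τ t1 t2]
    exact h1 K ι W N β s hS H hH (β i, τ) ⟨(hS.ins i).1, t2.trans hle⟩
  obtain ⟨T, ρ, hT, hk1, hnear⟩ := h5 K W ι N (N i) (β i) (s i) (zz (N i)) c ε₀ hz (hS.ins i) hs1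
    hε (hS.rel i) hlim
  choose w hw hw' using fun n : ℕ => DIR.exw W h6 (β i, (s i : ℝ) + 1 / ((n : ℝ) + 1)) hz
  have hx : lg (N i) (xx 0) = zz (N i) := by
    rw [hS.rel i _ (xx_ne 0), evA_xx0, W.gn_C, W.n_x, log_exp, mul_one]
  refine ⟨{
    κ := fun φ => W.kp (β i, s i) (W.ev φ)
    α := zz (N i) * (1 + s i)
    c := c
    e := fun n => zz (N i) * (1 / ((n : ℝ) + 1))
    w := w
    ρ := ρ
    T := T
    na := hS.fam.na i
    zpos := hx ▸ hz
    cpos := hc
    epos := fun n => by positivity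
    elim := ?_
    wna := hw
    lin := fun φ hφ => ?_
    k0 := ?_
    k1 := hk1
    jc := fun a b ha hb hab => ?_
    lim := fun H hH => ?_
    tne := hT
    near := fun φ hφ => ?_ }⟩
  · have := tendsto_one_div_add_atTop_nhds_zero_nat.const_mul (zz (N i))
    rwa [mul_zero] at this
  · filter_upwards [DIR.sl W h3 (β i) (s i) (h6 K W φ hφ).1] with n hn
    rw [hw' n φ hφ, hn.2.2, hS.rel i φ hφ]
    ring
  · rw [evA_xx0, Md.kp, roots_C]
    rfl
  · rw [hS.rel i a ha, hS.rel i b hb] at hab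
    obtain ⟨j0, j1, j2⟩ := DIR.jc W h3 h4 h6 (β i) (s i) ha hb fun e =>
      hab (by rw [mul_assoc, e, mul_assoc])
    refine ⟨j0, ?_, j2⟩
    rw [hS.rel i _ j0, hS.rel i a ha, hS.rel i b hb, j1]
    ring
  · filter_upwards [DIR.small hε] with n hn
    have k := (hlim (s i + 1 / ((n : ℝ) + 1)) (le_add_of_nonneg_right (by positivity))
      (by linarith) H hH).const_mul (zz (N i))
    rw [add_sub_cancel_left, mul_left_comm] at k
    refine k.congr fun j => ?_
    have h0 : H j ≠ 0 := fun e => by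
      have := hH.1 j
      rw [e, dg, MvPolynomial.totalDegree_zero] at this
      exact absurd this (by decide)
    rw [lp, hw' n _ h0, ← mul_div_assoc, mul_max_of_nonneg _ _ hz.le, mul_zero]
  · rw [hx]
    exact hnear φ hφ

end Pool.Agent.KSP

end

end Part7

-- ======== part 8: row TRF
section Part8

/-! Polynomial maps of the plane: the transformation of the slopes. -/

open Polynomial Filter Real
open scoped Topology

noncomputable section

namespace Pool.Agent.KSP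

namespace TRF

variable {K ι : Type} [Field K] [Fintype ι] {N : ι → AV K} {v : AV K} (D : Dir N v)

theorem tend (k : ℝ) (ε : ℝ) (hε : 0 < ε) : ∀ᶠ n in atTop, |k * D.e n| ≤ ε := by
  have t : Tendsto (fun n => |k * D.e n|) atTop (𝓝 0) := by
    simpa using (D.elim.const_mul k).abs
  exact t.eventually (ge_mem_nhds hε)

theorem k_cc {h : K} (h0 : h ≠ 0) {φ : R K} (hφ : φ ≠ 0) : D.κ (cc h * φ) = D.κ φ := by
  have c0 : (cc h : R K) ≠ 0 := by simpa using h0
  obtain ⟨n, e1, e2⟩ := ((D.lin φ hφ).and (D.lin _ (mul_ne_zero c0 hφ))).exists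
  rw [lg_mul _ c0 hφ, lg_mul _ c0 hφ, lg_cc (D.wna n), lg_cc D.na, zero_add, zero_add, e1] at e2
  exact_mod_cast (mul_right_cancel₀ (D.epos n).ne' (add_left_cancel e2)).symm

/-- lower bound along a thin sequence -/
theorem low {H : ℕ → R K} (hH : Thin N H) {t : ℝ} (ht : t < 1) : ∀ᶠ n in atTop, ∀ᶠ j in atTop,
    t * (D.c * D.e n) * dg (H j) ≤ lp (D.w n) (H j) := by
  filter_upwards [D.lim H hH] with n hn
  have p := mul_pos D.cpos (D.epos n)
  filter_upwards [hn.eventually (lt_mem_nhds (show t * (D.c * D.e n) < D.c * D.e n by nlinarith))]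
    with j hj
  exact ((lt_div_iff₀ (Nat.cast_pos.2 (hH.1 j))).1 hj).le

end TRF

open TRF in
theorem trf : S_TRF := by
  intro K ι _ _ _ N v D s σ hc inv hJ hE
  obtain ⟨G, κ₀, k1, hG, hG', hk⟩ := hE
  have linv : ∀ φ, lg v (s φ) = lg v φ := fun φ => by rw [lg, ← hc, inv]; rfl
  have z0 := D.zpos
  have key : ∀ φ : R K, φ ≠ 0 → ∀ᶠ n in atTop,
      (1 + κ₀) / 2 * lg v (xx 0) * D.e n ≤ D.ρ (cp (D.w n) σ) ∧
      lg v (xx 0) * D.κ (s φ) * D.e n =
        D.κ (s (xx 0)) * lg v φ * D.e n + D.κ φ * D.ρ (cp (D.w n) σ) := fun φ hφ => by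
    obtain ⟨ε, e0, hn⟩ := D.near φ hφ
    have c1 : ∀ᶠ n in atTop, ∀ ψ ∈ D.T, |lg (cp (D.w n) σ) ψ - lg v ψ| ≤ ε := by
      refine (eventually_all_finset _).2 fun ψ hψ => ?_
      filter_upwards [D.lin _ (hc.ne (D.tne ψ hψ)), tend D (D.κ (s ψ)) ε e0] with n e1 e2
      rwa [hc.lg_cp, e1, linv, add_sub_cancel_left]
    have k0 : 0 < κ₀ := one_pos.trans k1
    filter_upwards [c1, low D hG' (t := (1 + κ₀) / 2 / κ₀) ((div_lt_one k0).2 (by linarith)),
      D.lin _ (hc.ne hφ), D.lin _ (hc.ne (xx_ne 0))] with n c1 c2 c3 c4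
    have p := mul_pos D.cpos (D.epos n)
    obtain ⟨f1, f2⟩ := hn _ ((D.wna n).cp σ) c1 G hG ((1 + κ₀) / 2 * (D.c * D.e n))
      (by positivity) (c2.mono fun j hj => by
        rw [lp, hc.lg_cp]
        refine le_trans ?_ hj
        have := mul_le_mul_of_nonneg_left (hk j)
          (show 0 ≤ (1 + κ₀) / 2 / κ₀ * (D.c * D.e n) by positivity)
        refine le_trans (le_of_eq ?_) this
        field_simp).frequently
    rw [hc.lg_cp, hc.lg_cp, c3, c4, linv, linv] at f2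
    refine ⟨le_of_mul_le_mul_left (le_trans (le_of_eq ?_) f1) D.cpos, by linarith⟩
    ring
  obtain ⟨φ₀, φ0, p1⟩ := D.k1
  have p0 : (0 : ℝ) < D.κ φ₀ := by exact_mod_cast p1
  obtain ⟨m, hm⟩ : ∃ m : ℝ, lg v (xx 0) * D.κ (s φ₀) = D.κ (s (xx 0)) * lg v φ₀ + m * D.κ φ₀ :=
    ⟨(lg v (xx 0) * D.κ (s φ₀) - D.κ (s (xx 0)) * lg v φ₀) / D.κ φ₀, by field_simp; ring⟩
  have hρ : ∀ᶠ n in atTop, D.ρ (cp (D.w n) σ) = m * D.e n := by
    filter_upwards [key φ₀ φ0] with n hn
    refine mul_left_cancel₀ p0.ne' ?_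
    linear_combination D.e n * hm - hn.2
  have m1 : lg v (xx 0) < m := by
    obtain ⟨n, e1, e2⟩ := (hρ.and (key φ₀ φ0)).exists
    have := e2.1
    rw [e1] at this
    have := le_of_mul_le_mul_right this (D.epos n)
    nlinarith
  have main : ∀ φ : R K, φ ≠ 0 →
      lg v (xx 0) * D.κ (s φ) = D.κ (s (xx 0)) * lg v φ + m * D.κ φ := fun φ hφ => by
    obtain ⟨n, e1, e2⟩ := (hρ.and (key φ hφ)).exists
    refine mul_right_cancel₀ (D.epos n).ne' ?_
    rw [e2.2, e1]; ring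
  refine ⟨?_, m, m1, main⟩
  obtain ⟨j0, j1, j2⟩ := D.jc (xx 0) φ₀ (xx_ne 0) φ0 (by
    rw [D.k0, Nat.cast_zero, mul_zero]; positivity)
  obtain ⟨i0, -, i2⟩ := D.jc (s (xx 0)) (s φ₀) (hc.ne (xx_ne 0)) (hc.ne φ0) (by
    rw [linv, linv, hm]
    have := mul_pos (z0.trans m1) p0
    intro h
    linarith)
  obtain ⟨h, hh⟩ := dg_eq_zero hJ
  rw [jac_map, hh] at i0 i2
  have h0 : h ≠ 0 := fun e => i0 (by simp [e])
  rw [k_cc D h0 (hc.ne j0)] at i2
  by_contra k0
  have k0' : D.κ (s (xx 0)) = 0 := by omega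
  have e := main _ j0
  rw [D.k0, zero_add] at j2
  rw [k0', zero_add] at i2
  rw [k0', Nat.cast_zero, zero_mul, zero_add] at e hm
  rw [← i2, ← j2] at hm
  push_cast at hm
  linarith

end Pool.Agent.KSP

end

end Part8

-- ======== part 9: row CLOSE
section Part9

/-! Row CLOSE: continuity of the extensions. -/

open Polynomial Filter Real
open scoped Topology

noncomputable section

namespace Pool.Agent.KSP

namespace CLOSE

variable {K : Type} [Field K]

theorem lim {v : AV K} {w : ℕ → AV K}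
    (h : ∀ ψ : R K, ψ ≠ 0 → Tendsto (fun n => lg (w n) ψ) atTop (𝓝 (lg v ψ))) (b : M K) :
    Tendsto (fun n => w n b) atTop (𝓝 (v b)) := by
  have key : ∀ ψ : R K, Tendsto (fun n => w n (io ψ)) atTop (𝓝 (v (io ψ))) := fun ψ => by
    by_cases h0 : ψ = 0
    · simp [h0]
    · simpa only [exp_lg _ h0] using (h ψ h0).rexp
  obtain ⟨f, g, hg, rfl⟩ := exists_io b
  simp only [map_div₀]
  exact (key f).div (key g) (v.ne_zero (io_ne hg))

theorem root_le {η : AV K} (hη : IsNonarchimedean η) {σ : M K →+* M K} {p : (M K)[X]}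
    (hp : p.Monic) {a : M K} (ha : p.eval₂ σ a = 0) {B : ℝ} (hB : 0 < B)
    (h : ∀ j < p.natDegree, η (σ (p.coeff j)) ≤ B ^ (p.natDegree - j)) : η a ≤ B := by
  by_contra hc
  rw [not_le] at hc
  have h0 := hB.trans hc
  rw [eval₂_eq_sum_range, Finset.sum_range_succ, hp.coeff_natDegree, map_one, one_mul,
    add_eq_zero_iff_neg_eq] at ha
  have h1 : η (∑ j ∈ Finset.range p.natDegree, σ (p.coeff j) * a ^ j) < η a ^ p.natDegree :=
    KSkew.na_sum_lt hη _ _ (pow_pos h0 _) fun j hj => by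
      have hj := Finset.mem_range.1 hj
      rw [map_mul, map_pow, ← Nat.sub_add_cancel hj.le, pow_add]
      exact mul_lt_mul_of_pos_right ((h j hj).trans_lt
        (pow_lt_pow_left₀ hc hB.le (Nat.sub_ne_zero_of_lt hj))) (pow_pos h0 _)
  rw [← map_pow, ← ha, η.map_neg] at h1
  exact lt_irrefl _ h1

end CLOSE

theorem close (h1 : S_EMB) : S_CLOSE := by
  intro K _ _ σ v w hv hu hw ψ hψ ε hε
  obtain ⟨-, ch, tr, hch, -, -, h2⟩ := h1 K σ
  obtain ⟨η0, -, h3, h4⟩ := h2 v hv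
  have key : ∀ a : M K, a ≠ 0 → ∀ᶠ n in atTop, ∀ η : AV K, NA K η →
      (∀ b, η (σ b) = w n (σ b)) → log (η a) ≤ ε + log (v a) := fun a ha => by
    have h5 := ((h4 a).2 (v a) fun k => by rw [hu _ (h3 k).1 (h3 k).2]).2
    have h6 : v a < exp ε * v a := lt_mul_of_one_lt_left (v.pos ha) (one_lt_exp_iff.2 hε)
    filter_upwards [(eventually_all_finset (Finset.range (qq σ))).2 fun j hj =>
      (CLOSE.lim hw (σ ((ch a).coeff j))).eventually_le_const ((h5 j).trans_lt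
        (pow_lt_pow_left₀ h6 (v.nonneg a) (Nat.sub_ne_zero_of_lt (Finset.mem_range.1 hj))))]
      with n hn η hη he
    have h7 := CLOSE.root_le hη.1 (hch a).1 (hch a).2.2 ((v.pos ha).trans h6) fun j hj => by
      rw [(hch a).2.1] at hj ⊢
      exact (he _).trans_le (hn j (Finset.mem_range.2 hj))
    have h8 := log_le_log (η.pos ha) h7
    rwa [log_mul (exp_pos _).ne' (v.ne_zero ha), log_exp] at h8
  filter_upwards [key _ (io_ne hψ), key _ (inv_ne_zero (io_ne hψ))] with n a b η hη he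
  have c := a η hη he
  have d := b η hη he
  rw [map_inv₀, map_inv₀, log_inv, log_inv] at d
  rw [lg, lg, abs_le]
  constructor <;> linarith

end Pool.Agent.KSP

end

end Part9

-- ======== part 10: row JFIN
section Part10

/-! Polynomial maps of the plane: a map of constant Jacobian with an invariant divisorial family
is not finite. -/

open Polynomial Filter Real
open scoped Topology

noncomputable section

namespace Pool.Agent.KSP

open TRF in
theorem jfin (h1 : S_EMB) (h2 : S_ORD) (h3 : S_DEN) (h4 : S_TRF) (h5 : S_CLOSE) : S_JFIN := by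
  intro K ι _ _ _ N v D s σ hc inv hJ hE hU a ha
  obtain ⟨k1, m, m1, hκ⟩ := h4 K ι N v D s σ hc inv hJ hE
  obtain ⟨G, κ₀, -, -, hG', -⟩ := hE
  have linv : ∀ φ, lg v (s φ) = lg v φ := fun φ => by rw [lg, ← hc, inv]; rfl
  have z0 := D.zpos
  by_contra h0
  obtain ⟨c, rfl⟩ := dg_eq_zero (φ := a) (by omega)
  have c0 : c ≠ 0 := fun h => ha.1 (by simp [h])
  obtain ⟨ext, ch, tr, hch, -, -, hf⟩ := h1 K σ
  obtain ⟨ν, hν⟩ := (h2 K).2.2.1 ((ch (io (xx 0))).coeff 0) fun p o _ ho => by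
    obtain ⟨η₀, n0, e0⟩ := ext o ho.na
    obtain ⟨η, -, hη, hp⟩ := hf η₀ n0
    rw [← e0, ← (hp _).1]
    refine Finset.prod_le_one (fun k _ => (η k).nonneg _) fun k _ => ?_
    have := (h3 K s σ hc).2.1 _ ha (η k) (hη k).1
      (fun ψ => by rw [(hη k).2, e0]; exact ho.le ψ) 0
    rwa [io_cc, σ.commutes, map_mul, (hη k).1.2 c c0, one_mul] at this
  have sum : ∀ (η₀ : AV K) (η : Fin (qq σ) → AV K),
      ∏ k, η k (io (xx 0)) = η₀ (σ ((ch (io (xx 0))).coeff 0)) →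
      ν ≠ 0 ∧ ∑ k, lg (η k) (xx 0) = lg η₀ (s ν) := fun η₀ η e => by
    have ne : ∀ k ∈ Finset.univ, η k (io (xx 0)) ≠ 0 := fun k _ => (η k).ne_zero (io_ne (xx_ne 0))
    rw [← hν, hc] at e
    refine ⟨fun h => Finset.prod_ne_zero_iff.2 ne (by rw [e, h]; simp), ?_⟩
    rw [lg, ← e, log_prod ne]; rfl
  obtain ⟨η₁, ⟨k₁, -⟩, hη₁, hp₁⟩ := hf v D.na
  have q0 : (0 : ℝ) < qq σ := Nat.cast_pos.2 k₁.pos
  obtain ⟨ν0, e1⟩ := sum v η₁ (hp₁ _).1
  rw [Finset.sum_congr rfl fun k _ => by rw [hU (η₁ k) (hη₁ k).1 (hη₁ k).2], Finset.sum_const,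
    Finset.card_univ, Fintype.card_fin, nsmul_eq_mul, linv] at e1
  have k0 : (0 : ℝ) < D.κ (s (xx 0)) := by exact_mod_cast k1
  have e2 : (D.κ (s (xx 0)) : ℝ) * qq σ ≤ D.κ (s ν) := by
    refine le_of_mul_le_mul_left ?_ z0
    rw [hκ ν ν0, ← e1]
    have : 0 ≤ m * D.κ ν := mul_nonneg (z0.trans m1).le (Nat.cast_nonneg _)
    linarith
  obtain ⟨ε, e0, hn⟩ := D.near _ (hc.ne (xx_ne 0))
  have conv : ∀ ψ : R K, ψ ≠ 0 → Tendsto (fun n => lg (D.w n) ψ) atTop (𝓝 (lg v ψ)) := fun ψ hψ => by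
    have t : Tendsto (fun n => lg v ψ + D.κ ψ * D.e n) atTop (𝓝 (lg v ψ)) := by
      simpa using (D.elim.const_mul (D.κ ψ : ℝ)).const_add (lg v ψ)
    exact t.congr' ((D.lin ψ hψ).mono fun n h => h.symm)
  have c1 : ∀ᶠ n in atTop, ∀ ψ ∈ D.T, ∀ η : AV K, NA K η → (∀ b, η (σ b) = D.w n (σ b)) →
      |lg η ψ - lg v ψ| ≤ ε :=
    (eventually_all_finset _).2 fun ψ hψ => h5 K σ v D.w D.na hU conv ψ (D.tne ψ hψ) ε e0
  obtain ⟨n, c1, c2, c3, c4⟩ := (c1.and ((low D hG' (t := 1 / 2) (by norm_num)).and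
    ((D.lin _ (hc.ne ν0)).and (D.lin _ (hc.ne (xx_ne 0)))))).exists
  obtain ⟨η, -, hη, hp⟩ := hf (D.w n) (D.wna n)
  have e3 := (sum _ η (hp _).1).2
  have p := mul_pos D.cpos (D.epos n)
  have lt : ∀ k, lg (η k) (xx 0) < lg v (xx 0) + D.κ (s (xx 0)) * D.e n := fun k => by
    have same : ∀ φ, lg (η k) (s φ) = lg (D.w n) (s φ) := fun φ => by
      rw [lg, lg, ← hc, (hη k).2]
    obtain ⟨f1, f2⟩ := hn (η k) (hη k).1 (fun ψ hψ => c1 ψ hψ _ (hη k).1 (hη k).2) _ hG'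
      (1 / 2 * (D.c * D.e n)) (by positivity) (c2.mono fun j hj => by rwa [lp, same]).frequently
    have r0 : 0 < D.ρ (η k) := (mul_pos_iff_of_pos_left D.cpos).1 (lt_of_lt_of_le (by positivity) f1)
    rw [same, c4, linv] at f2
    refine lt_of_mul_lt_mul_left ?_ z0.le
    have := mul_pos k0 r0
    linarith
  have e4 := Finset.sum_lt_sum_of_nonempty (s := Finset.univ) ⟨k₁, Finset.mem_univ _⟩
    fun k _ => lt k
  rw [e3, c3, linv, ← e1, Finset.sum_const, Finset.card_univ, Fintype.card_fin, nsmul_eq_mul] at e4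
  nlinarith [mul_le_mul_of_nonneg_right e2 (D.epos n).le]

end Pool.Agent.KSP

end

end Part10

-- ======== part 11: row RSL
section Part11

/-! Polynomial maps of the plane: the resultant. -/

open Polynomial Filter Real
open scoped Topology

noncomputable section

namespace Pool.Agent.KSP

namespace RSL

variable {K : Type} [Field K]

theorem top (φ : R K) :
    (((Bivariate.equivMvPolynomial K).symm φ).coeff (dg φ)).natDegree ≤ 0 := by
  conv_lhs => rw [φ.as_sum]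
  rw [map_sum, finsetSum_coeff, ← φ.as_sum]
  refine natDegree_sum_le_of_forall_le _ _ fun m hm => ?_
  have h1 := MvPolynomial.le_totalDegree hm
  rw [Finsupp.sum_fintype _ _ fun _ => rfl, Fin.sum_univ_two] at h1
  have e : (Bivariate.equivMvPolynomial K).symm (MvPolynomial.monomial m (φ.coeff m)) =
      C (C (φ.coeff m) * X ^ m 0) * X ^ m 1 := by
    rw [MvPolynomial.monomial_eq, Finsupp.prod_fintype _ _ fun _ => pow_zero _, Fin.prod_univ_two]
    simp [mul_assoc]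
  rw [e, coeff_C_mul, coeff_X_pow]
  split_ifs with h
  · have h2 : m 0 = 0 := by
      have h3 : MvPolynomial.totalDegree φ = m 1 := h
      omega
    simp [h2]
  · simp

theorem res_ne {p q : K[X][X]} (hp : Irreducible p) (hd : p.natDegree ≠ 0) (h : ¬ p ∣ q) :
    resultant p q p.natDegree q.natDegree ≠ 0 := by
  have inj := FaithfulSMul.algebraMap_injective K[X] (FractionRing K[X])
  have h1 := hp.isPrimitive hd
  have h2 := (h1.irreducible_iff_irreducible_map_fraction_map (K := FractionRing K[X])).1 hp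
  have h3 := resultant_ne_zero _ _ (h2.coprime_iff_not_dvd.2 fun k =>
    h (h1.dvd_of_fraction_map_dvd_fraction_map (K := FractionRing K[X]) k))
  rw [natDegree_map_eq_of_injective inj, natDegree_map_eq_of_injective inj,
    resultant_map_map] at h3
  exact fun k => h3 (by rw [k, map_zero])

end RSL

open RSL in
theorem rsl : S_RSL := by
  intro K _ _ W c g hc hd hg
  have ht := RSL.top c
  obtain ⟨p, rfl⟩ := (Bivariate.equivMvPolynomial K).surjective c
  obtain ⟨q, rfl⟩ := (Bivariate.equivMvPolynomial K).surjective g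
  rw [AlgEquiv.symm_apply_apply] at ht
  have inj : Function.Injective ((aeval W.x : K[X] →ₐ[K] W.E) : K[X] →+* W.E) := by
    refine (injective_iff_map_eq_zero _).2 fun a ha => by_contra fun k => ?_
    have h1 := W.n_aeval k
    rw [show aeval W.x a = 0 from ha, map_zero] at h1
    exact (exp_pos _).ne h1
  simp only [Md.ev, KLC.evA_equiv] at hd ⊢
  rw [natDegree_map_eq_of_injective inj] at hd
  rw [← hd] at ht
  have hp : Irreducible p := (MulEquiv.irreducible_iff (Bivariate.equivMvPolynomial K)).1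
    hc.irreducible
  by_cases h0 : p.natDegree = 0
  · have h1 := card_roots' (p.map ((aeval W.x : K[X] →ₐ[K] W.E) : K[X] →+* W.E))
    rw [natDegree_map_eq_of_injective inj, h0, Nat.le_zero, Multiset.card_eq_zero] at h1
    simp [h1]
  have h1 := res_ne hp h0 fun k => hg (map_dvd _ k)
  have h2 := resultant_eq_prod_eval (p.map ((aeval W.x : K[X] →ₐ[K] W.E) : K[X] →+* W.E))
    (q.map ((aeval W.x : K[X] →ₐ[K] W.E) : K[X] →+* W.E)) q.natDegree natDegree_map_le
    (IsAlgClosed.splits _)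
  rw [natDegree_map_eq_of_injective inj, resultant_map_map,
    leadingCoeff_map_of_injective inj] at h2
  have h3 := congrArg W.n h2
  have h4 : W.n (aeval W.x p.leadingCoeff) = 1 := by
    rw [W.n_aeval (leadingCoeff_ne_zero.2 hp.ne_zero), leadingCoeff, Nat.le_zero.1 ht]
    simp
  rw [map_mul, map_pow, RingHom.coe_coe, W.n_aeval h1, h4, one_pow, one_mul, map_multiset_prod,
    Multiset.map_map] at h3
  exact (one_le_exp (Nat.cast_nonneg _)).trans h3.le

end Pool.Agent.KSP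

end

end Part11

-- ======== part 12: row RIN
section Part12

/-! Row RIN: the roots of a polynomial of degree zero. -/

open Polynomial Filter Real
open scoped Topology

noncomputable section

namespace Pool.Agent.KSP

namespace RIN

variable {K : Type} [Field K] (W : Md K)

theorem n_sub (a b c : W.E) : W.n (a - c) ≤ max (W.n (a - b)) (W.n (b - c)) := by
  have := W.na.1 (a - b) (b - c)
  rwa [sub_add_sub_cancel] at this

theorem kk_out {θ γ : W.E} (hγ : W.n γ ≤ exp 1) (hθ : exp 1 < W.n θ) (t u : ℝ) :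
    W.kk (θ, t) (γ, u) = 0 := by
  have h1 := n_sub W θ γ 0
  rw [sub_zero, sub_zero] at h1
  have h2 : exp 1 < W.n (θ - γ) := by
    rcases le_max_iff.1 h1 with h | h
    · exact hθ.trans_le h
    · exact absurd (hθ.trans_le h) (not_lt.2 hγ)
  have h3 : 1 ≤ log (max (W.n (θ - γ)) (max (exp t) (exp u))) :=
    (le_log_iff_exp_le ((exp_pos 1).trans (h2.trans_le (le_max_left _ _)))).2
      (h2.le.trans (le_max_left _ _))
  exact max_eq_left (by simpa using h3)

theorem kk_move {θ θ' γ : W.E} {t u : ℝ} (htu : t ≤ u) (hu : exp u < W.n (γ - θ))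
    (h0 : 0 < W.n (θ' - θ)) (hm : W.n (θ' - θ) ≤ W.n (γ - θ)) :
    W.kk (θ', log (W.n (θ' - θ))) (γ, u) = W.kk (θ, t) (γ, u) := by
  have e1 : max (W.n (θ - γ)) (max (exp t) (exp u)) = W.n (γ - θ) := by
    rw [max_eq_right (exp_le_exp.2 htu), W.n.map_sub θ γ, max_eq_left hu.le]
  have e2 : max (W.n (θ' - γ)) (max (W.n (θ' - θ)) (exp u)) = W.n (γ - θ) := by
    refine le_antisymm (max_le ?_ (max_le hm hu.le)) ?_
    · refine (n_sub W θ' θ γ).trans (max_le hm ?_)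
      rw [W.n.map_sub θ γ]
    · refine (n_sub W γ θ' θ).trans (max_le ?_ ?_)
      · rw [W.n.map_sub γ θ']; exact le_max_left _ _
      · exact (le_max_left _ _).trans (le_max_right _ _)
  simp only [Md.kk, exp_log h0, e1, e2]

theorem sum_eq {A : Type} (m : Multiset A) (F : A → ℝ) (d : ℕ) (hc : m.card ≤ d)
    (h1 : ∀ a ∈ m, F a ≤ 1) (hs : (m.map F).sum = d) : m.card = d ∧ ∀ a ∈ m, F a = 1 := by
  have e : (m.map fun a => 1 - F a).sum = m.card - d := by
    rw [Multiset.sum_map_sub, hs]; simp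
  have hn : ∀ x ∈ m.map fun a => 1 - F a, (0 : ℝ) ≤ x := fun x hx => by
    obtain ⟨a, ha, rfl⟩ := Multiset.mem_map.1 hx
    linarith [h1 a ha]
  have h0 := Multiset.sum_nonneg hn
  have hc' : (m.card : ℝ) ≤ d := Nat.cast_le.2 hc
  refine ⟨by exact_mod_cast (le_antisymm hc' (by linarith) : (m.card : ℝ) = d), fun a ha => ?_⟩
  have := Multiset.single_le_sum hn _ (Multiset.mem_map_of_mem _ ha)
  linarith [h1 a ha]

end RIN

theorem rin (h1 : S_GAL) (h2 : S_ROOT) (h3 : S_GAM) (h4 : S_GLIN) : S_RIN := by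
  classical
  intro K ι _ _ _ W N β s h G hG φ hφ hN
  have hZ := h.fam.ZZ_pos
  obtain ⟨t, ht1, ht⟩ : ∃ t : ℝ, t ≤ 1 ∧ ∀ i, t ≤ s i := by
    have hn : ∀ i ∈ Finset.univ, 0 ≤ |(s i : ℝ)| := fun i _ => abs_nonneg _
    refine ⟨-∑ i, |(s i : ℝ)|, by linarith [Finset.sum_nonneg hn], fun i => ?_⟩
    linarith [Finset.single_le_sum hn (Finset.mem_univ i), neg_abs_le (s i : ℝ)]
  have hroot : ∀ i, ∀ γ ∈ (W.up (minpoly W.L (β i))).roots, W.n γ ≤ exp 1 := fun i γ hγ => by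
    obtain ⟨σ, rfl⟩ := (((h1 K W).1 (β i)).2.2.2 γ).1 hγ
    rw [W.conj]; exact (h.ins i).1
  have hout : ∀ θ, exp 1 < W.n θ → W.B (W.sg (θ, t)) (W.vec N β s) = 0 := fun θ hθ => by
    rw [Md.B_vec]
    refine Finset.sum_eq_zero fun i _ => ?_
    rw [Md.B_sg_av, Multiset.sum_eq_zero, mul_zero, mul_zero]
    intro x hx
    obtain ⟨γ, hγ, rfl⟩ := Multiset.mem_map.1 hx
    exact RIN.kk_out W (hroot i γ hγ) hθ _ _
  have hle : ∀ θ, W.B (W.sg (θ, t)) (W.vec N β s) ≤ 1 := fun θ => by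
    rcases le_or_gt (W.n θ) (exp 1) with hθ | hθ
    · have := ge_of_tendsto' (h3 K ι W N β s h G hG (θ, t) ⟨hθ, ht1⟩)
        fun n => div_nonneg (le_max_left _ _) (Nat.cast_nonneg _)
      rw [W.B_av_vec h1] at this
      linarith
    · rw [hout θ hθ]; exact zero_le_one
  have hsum : ((W.ev φ).roots.map fun θ => W.B (W.sg (θ, t)) (W.vec N β s)).sum = dg φ := by
    have e : ∀ i, zz (N i) / ZZ N * W.B (W.rt (W.ev φ) fun _ => t) (W.av (β i, s i)) =
        zz (N i) / ZZ N * dg φ - lg (N i) φ / ZZ N := fun i => by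
      rw [W.B_symm, W.B_av_rt h1 h2 (h.ins i) (ht i) hφ, h.rel i φ hφ]; ring
    have e2 := W.B_vec (N := N) (β := β) (s := s) (W.rt (W.ev φ) fun _ => t)
    simp only [e] at e2
    rw [Finset.sum_sub_distrib, ← Finset.sum_mul, h.sum_one, ← Finset.sum_div, W.B_symm,
      W.B_rt] at e2
    simp only [W.B_symm (W.vec N β s)] at e2
    rw [e2, show ∑ i, lg (N i) φ = 0 from hN]; ring
  have hd := (h2 K W φ hφ).2.1
  obtain ⟨hc, hone⟩ := RIN.sum_eq _ _ _ ((card_roots' _).trans hd) (fun θ _ => hle θ) hsum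
  refine ⟨le_antisymm hd (hc ▸ card_roots' _), fun θ hθ => ?_⟩
  by_contra hcon
  push Not at hcon
  have hθ1 : W.n θ ≤ exp 1 := not_lt.1 fun hlt => by
    have := hone θ hθ
    rw [hout θ hlt] at this
    exact zero_ne_one this
  have hfar : ∀ i, ∀ γ ∈ (W.up (minpoly W.L (β i))).roots, exp (s i) < W.n (γ - θ) :=
    fun i γ hγ => by
      obtain ⟨σ, rfl⟩ := (((h1 K W).1 (β i)).2.2.2 γ).1 hγ
      exact hcon i σ
  obtain ⟨i₀⟩ := h.fam.ne
  obtain ⟨θ', hθ', hmin⟩ := (Finset.univ.biUnion fun i =>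
    (W.up (minpoly W.L (β i))).roots.toFinset).exists_min_image (fun γ => W.n (γ - θ))
      ⟨β i₀, Finset.mem_biUnion.2 ⟨i₀, Finset.mem_univ _, Multiset.mem_toFinset.2
        ((((h1 K W).1 (β i₀)).2.2.2 _).2 ⟨1, rfl⟩)⟩⟩
  obtain ⟨i, -, hi⟩ := Finset.mem_biUnion.1 hθ'
  rw [Multiset.mem_toFinset] at hi
  have hr := hfar i θ' hi
  have hr0 : 0 < W.n (θ' - θ) := (exp_pos _).trans hr
  have hr1 : W.n (θ' - θ) ≤ exp 1 := by
    refine (RIN.n_sub W θ' 0 θ).trans (max_le ?_ ?_)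
    · rw [sub_zero]; exact hroot i θ' hi
    · rw [W.n.map_sub, sub_zero]; exact hθ1
  have hlt := (h4 K ι W N β s h i).2.2 (log (W.n (θ' - θ))) ((lt_log_iff_exp_lt hr0).2 hr)
    ((log_le_iff_le_exp hr0).2 hr1)
  obtain ⟨σ, hσ⟩ := (((h1 K W).1 (β i)).2.2.2 θ').1 hi
  rw [← W.av_conj σ, hσ, W.B_av_vec h1] at hlt
  refine hlt.ne ((hone θ hθ).symm ▸ ?_)
  simp only [Md.B_vec, Md.B_sg_av]
  refine Finset.sum_congr rfl fun l _ => ?_
  congr 3
  refine Multiset.map_congr rfl fun γ hγ => ?_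
  exact RIN.kk_move W (ht l) (hfar l γ hγ) hr0 (hmin γ (Finset.mem_biUnion.2
    ⟨l, Finset.mem_univ _, Multiset.mem_toFinset.2 hγ⟩))

end Pool.Agent.KSP

end

end Part12

-- ======== part 13: row RES
section Part13

/-! Row RES: a prime of degree zero that dominates a coprime polynomial is bounded. -/

open Polynomial Filter Real
open scoped Topology

noncomputable section

namespace Pool.Agent.KSP

namespace RES

variable {K : Type} [Field K] (W : Md K)

theorem kk_mono {a θ : W.E} {s t : ℝ} (h : W.n (a - θ) ≤ exp s) (ht : t ≤ s) (b : W.E × ℝ) :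
    W.kk (a, s) b ≤ W.kk (θ, t) b := by
  refine max_le_max le_rfl (sub_le_sub_left (log_le_log
    (lt_max_of_lt_right (lt_max_of_lt_left (exp_pos _))) (max_le ?_ ?_)) _)
  · have h1 := W.na.1 (a - b.1) (-(a - θ))
    rw [AbsoluteValue.map_neg, show a - b.1 + -(a - θ) = θ - b.1 by ring] at h1
    exact h1.trans (max_le_max le_rfl (h.trans (le_max_left _ _)))
  · exact (max_le_max (exp_le_exp.2 ht) le_rfl).trans (le_max_right _ _)

theorem av_le [CharZero K] (h1 : S_GAL) (σ : W.E ≃ₐ[W.L] W.E) {β θ : W.E} {s t : ℝ}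
    (h : W.n (σ β - θ) ≤ exp s) (ht : t ≤ s) (b : W.E × ℝ) :
    W.B (W.av b) (W.av (β, s)) ≤ W.B (W.av b) (W.sg (θ, t)) := by
  rw [W.B_symm, ← W.av_conj σ, W.B_av_av h1, W.B_symm (W.av b), W.B_sg_av, W.B_sg_av]
  exact mul_le_mul_of_nonneg_left
    (Multiset.sum_map_le_sum_map _ _ fun x _ => kk_mono W h ht _) (by positivity)

end RES

theorem res (h1 : S_GAL) (h2 : S_ROOT) (h3 : S_PSD) (h4 : S_SL) (h5 : S_RSL) (h6 : S_RIN) :
    S_RES := by
  intro K ι _ _ _ W N β s h G hG c g hc hN hcg hle l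
  have hc0 := hc.ne_zero
  have hg0 : g ≠ 0 := fun e => hcg (e ▸ dvd_zero c)
  obtain ⟨hdeg, hr⟩ := h6 K ι W N β s h G hG c hc0 hN
  have := h.fam.ne
  choose! i σ hi using hr
  obtain ⟨lam, hlam⟩ : ∃ lam : ι → ℝ, ∀ j, lam j = log (W.gn (β j, s j) (W.ev c)) :=
    ⟨_, fun _ => rfl⟩
  have hcard : ((W.ev c).roots.card : ℝ) = dg c := by
    rw [← hdeg, IsAlgClosed.card_roots_eq_natDegree]
  have a1 : ∀ θ ∈ (W.ev c).roots, W.n ((W.ev g).eval θ) ≤ exp (lam (i θ)) := fun θ hθ => by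
    have b1 := (h4 K W).1 (W.ep θ) (σ θ (β (i θ))) (s (i θ)) (W.ev g) (by
      rw [Md.ep_f, eval_sub, eval_X, eval_C, AbsoluteValue.map_sub]; exact hi θ hθ)
    rw [Md.ep_f, W.gn_conj h1, ← exp_log ((W.gn _).pos (h2 K W g hg0).1)] at b1
    refine b1.trans (exp_le_exp.2 ?_)
    have b2 := hle (i θ)
    rw [h.rel _ _ hg0, h.rel _ _ hc0, ← hlam] at b2
    exact le_of_mul_le_mul_left b2 (h.fam.inf _)
  have a2 : 0 ≤ ((W.ev c).roots.map fun θ => lam (i θ)).sum := by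
    rw [← one_le_exp_iff, exp_multiset_sum, Multiset.map_map]
    exact (h5 K W c g hc hdeg hcg).trans
      (Multiset.prod_map_le_prod_map₀ _ _ (fun _ _ => W.n.nonneg _) a1)
  obtain ⟨t, ht⟩ : ∃ t : ℝ, ∀ j, t ≤ s j := Finite.exists_ge _
  obtain ⟨p, hp⟩ : ∃ p : W.V, p = ((W.ev c).roots.map fun θ => W.av (β (i θ), s (i θ))).sum :=
    ⟨_, rfl⟩
  have hB : ∀ u, W.B u p =
      ((W.ev c).roots.map fun θ => W.B u (W.av (β (i θ), s (i θ)))).sum := fun u => by
    rw [hp, map_multiset_sum, Multiset.map_map]; rfl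
  have a3 : ∀ j, W.B (W.av (β j, s j)) p ≤ dg c - lam j := fun j => by
    rw [hlam, ← W.B_av_rt h1 h2 (h.ins j) (ht j) hc0, W.B_rt, hB]
    exact Multiset.sum_map_le_sum_map _ _ fun θ hθ => RES.av_le W h1 (σ θ) (hi θ hθ) (ht _) _
  have a4 : W.B (W.vec N β s) p = dg c := by
    rw [hB]
    simp only [W.B_symm (W.vec N β s), h.one, Multiset.map_const', Multiset.sum_replicate,
      nsmul_eq_mul, mul_one, hcard]
  have a5 : W.B p p ≤ (dg c : ℝ) * dg c := by
    have b1 : W.B p p ≤ ((W.ev c).roots.map fun θ => (dg c : ℝ) - lam (i θ)).sum := by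
      rw [hB]
      exact Multiset.sum_map_le_sum_map _ _ fun θ _ => by rw [W.B_symm]; exact a3 _
    rw [Multiset.sum_map_sub, Multiset.map_const', Multiset.sum_replicate, nsmul_eq_mul,
      hcard] at b1
    linarith
  have a6 : W.B (p - (dg c : ℝ) • W.vec N β s) (p - (dg c : ℝ) • W.vec N β s) = 0 := by
    refine le_antisymm ?_ (h3 K W _)
    rw [W.B_sub_self, W.B_symm p (_ • _)]
    simp only [map_smul, LinearMap.smul_apply, smul_eq_mul, a4, h.sq]
    linarith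
  have a7 := W.cs (h3 K W) (W.av (β l, s l)) (p - (dg c : ℝ) • W.vec N β s)
  rw [a6, mul_zero, map_sub, map_smul, h.one, smul_eq_mul, mul_one] at a7
  have a8 := pow_eq_zero_iff (two_ne_zero) |>.1 (le_antisymm a7 (sq_nonneg _))
  have a9 := a3 l
  rw [h.rel _ _ hc0, ← hlam]
  exact mul_nonpos_of_nonneg_of_nonpos (zz_nonneg _) (by linarith)

end Pool.Agent.KSP

end

end Part13

-- ======== part 14: row JGEN
section Part14

/-! Row JGEN: reduction to generic coordinates. -/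

open Polynomial Filter Real
open scoped Topology

noncomputable section

namespace Pool.Agent.KSP

namespace JGEN

variable {K : Type} [Field K]

theorem ra_of {σ : M K ≃ₐ[K] M K} (v : AV K) (h : RA (cp v (σ : M K →ₐ[K] M K))) : RA v :=
  fun a ha => by
  obtain ⟨p, hp, h'⟩ := h (σ.symm a) (by simpa using ha)
  refine ⟨p, hp, ?_⟩
  rw [cp_apply, ← aeval_algHom_apply] at h'
  simpa using h'

end JGEN

open KLD in
theorem jgen (h1 : S_GEN) (h2 : S_JMAIN) : S_JGEN := by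
  intro K ι _ _ _ N s σ μ hE hμ hRA hJ hX
  have hN := hE.toFam
  obtain ⟨c, -, τ, g, hc, hx0, hx1, hdg, hx, hz⟩ := h1 K ι N ∅ hN.na hN.inf
  have hJ1 : JJ (τ : R K →ₐ[K] R K) = 1 := by
    have e0 : (τ : R K →ₐ[K] R K) (xx 0) = xx 0 + cc c * xx 1 := hx0
    have e1 : (τ : R K →ₐ[K] R K) (xx 1) = xx 1 := hx1
    rw [JJ, e0, e1, jac]
    simp
  have hJ2 : JJ (τ.symm : R K →ₐ[K] R K) = 1 := by
    have e := JJ_mul (τ.symm : R K →ₐ[K] R K) (τ : R K →ₐ[K] R K)
    rw [hJ1, map_one, mul_one] at e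
    rw [← e, JJ, jac]
    simp
  have hc' : Cmp (τ.symm : R K →ₐ[K] R K) (g.symm : M K →ₐ[K] M K) := fun φ =>
    g.injective (by simpa using (hc (τ.symm φ)).symm)
  have hs : ∀ φ, ((τ.symm : R K →ₐ[K] R K) * (s * (τ : R K →ₐ[K] R K))) (τ.symm φ) =
      τ.symm (s φ) := fun φ => by simp
  obtain ⟨u, hu, hu'⟩ := h2 K ι (fun i => cp (N i) (g : M K →ₐ[K] M K))
    ((τ.symm : R K →ₐ[K] R K) * (s * (τ : R K →ₐ[K] R K)))
    ((g.symm : M K →ₐ[K] M K) * (σ * (g : M K →ₐ[K] M K))) μ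
    { toFam := fam hc hz hN
      pos := hE.pos
      ineq := fun i j hij h => hE.ineq hij fun a b => by simpa using h (g.symm a) (g.symm b)
      eig := fun i a => by simpa using hE.eig i (g a)
      cmp := hc'.mul (hE.cmp.mul hc)
      thin := by
        obtain ⟨G, hG⟩ := hE.thin
        exact ⟨fun n => τ.symm (G n), by simpa only [hs] using KLD.thin hc hdg hG⟩ }
    hμ (fun i => by rw [hc.lg_cp, hz _ (hN.na i)]; exact hx i)
    (fun i h => hRA i (JGEN.ra_of _ h))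
    (by rw [JJ_mul, JJ_mul, hJ1, hJ2, map_one, mul_one, one_mul]; exact (dg_symm hdg _).trans hJ)
    (by
      obtain ⟨G, κ, a, b, d, e⟩ := hX
      exact ⟨fun n => τ.symm (G n), κ, a, KLD.thin hc hdg b, by simpa only [hs] using KLD.thin hc hdg d,
        fun n => by simpa only [hs, dg_symm hdg] using e n⟩)
  exact ⟨τ u, by rwa [hdg], fun i => by have := hu' i; rwa [hc.lg_cp] at this⟩

end Pool.Agent.KSP

end

end Part14

-- ======== part 15: row TOP3
section Part15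

/-! Polynomial maps of the plane: constant Jacobian, the case distinctions. -/

open Polynomial Filter Real
open scoped Topology

noncomputable section

namespace Pool.Agent.KSP

open CORE in
theorem std (h2 : S_TRA) (h3 : S_TRM) (h5 : S_NEF) (h6 : S_PENV) (h7 : S_PSD) (h8 : S_GAL) :
    S_STD := by
  intro K ι _ _ _ N hN W G hx hG hRA
  choose ζ hζ using fun i => W.univ (N i) (hN.na i) (hN.inf i) (hx i)
  replace hζ : ∀ i, Rel W.x (N i) (ζ i) := hζ
  have hD : ∀ i, ∃ (β : W.E) (s : ℚ), W.IsD (ζ i) (β, s) := fun i => by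
    obtain ⟨t1, t2⟩ := h3 K W (N i) (ζ i) (hN.na i) (hN.inf i) (hζ i)
    rcases h2 K W (ζ i) with ⟨a, ha⟩ | h
    · have h' : ¬ Irrational a.2 := fun h => hRA i ((t2 a ha).1 h).2
      obtain ⟨s, hs⟩ := not_not.1 h'
      exact ⟨a.1, s, by rw [hs]; exact ha⟩
    · exact absurd (t1 h).1 (hRA i)
  choose β s hD using hD
  have hZ := hN.ZZ_pos
  have hX : ∀ i, (ζ i).f X ≤ exp 1 := fun i => X_le (hN.inf i) (hζ i)
  have hIn : ∀ i, W.In (β i, s i) := fun i => in_of (hD i) (hX i)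
  let w : ι → ℝ := fun i => zz (N i) / ZZ N
  have hw : ∀ i, 0 < w i := fun i => div_pos (hN.inf i) hZ
  have hw1 : ∑ i, w i = 1 := by
    rw [← Finset.sum_div]; exact div_self hZ.ne'
  have ha := h5 K W ι ζ w (fun i => (β i, s i)) (fun i => (hw i).le) hw1 hX hIn
    (fun i => by
      rw [hD i, W.gn_X_sub_C, sub_self, map_zero]
      exact max_le le_rfl (exp_pos _).le)
    (fun φ hφ => ⟨fun i => (hζ i φ hφ).1, by
      have : ∑ i, w i * log ((ζ i).f (W.ev φ)) = Nn N φ / ZZ N := by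
        rw [Nn, Finset.sum_div]
        refine Finset.sum_congr rfl fun i _ => ?_
        rw [(hζ i φ hφ).2]
        simp only [w]
        ring
      rw [this]
      exact div_nonneg (hN.pf φ hφ) hZ.le⟩)
  choose p hp using fun n => h6 K W (G n) (hG.1 n)
  have hDpos : ∀ n, (0 : ℝ) < dg (G n) := fun n => Nat.cast_pos.2 (hG.1 n)
  let b : ℕ → W.V := fun n => ((dg (G n) : ℝ))⁻¹ • W.rt (W.ev (G n)) (p n)
  have hav : ∀ l n, W.B (W.av (β l, s l)) (b n) =
      1 - lp (N l) (G n) / dg (G n) / zz (N l) := fun l n => by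
    have e1 := (h8 K W).2.2.1 (W.evL (G n)) (p n) (hp n).inv (β l, s l)
    rw [W.up_evL] at e1
    have e2 := (hp n).ins _ (hIn l)
    rw [← hD l, lp_eq (hN.inf l) (hζ l) (ne_of_dg (hG.1 n))] at e2
    have := (hDpos n).ne'
    have := (hN.inf l).ne'
    simp only [b, map_smul, smul_eq_mul]
    rw [e1, e2]
    field_simp
  refine ⟨β, s, hN, hIn, fun i φ hφ => by rw [← hD i]; exact (hζ i φ hφ).2, fun l => ?_⟩
  refine pair_eq W (h7 K W) _ (∑ i, w i • W.av (β i, s i)) b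
    (fun n => lp (N l) (G n) / dg (G n) / zz (N l))
    (fun n => hh N (G n) / dg (G n) / ZZ N) ?_ ?_ ha (fun n => ?_) (fun n => ?_) (hav l)
  · have t : Tendsto (fun n => lp (N l) (G n) / dg (G n)) atTop (𝓝 0) :=
      squeeze_zero (fun n => div_nonneg (lp_nonneg _ _) (hDpos n).le)
        (fun n => div_le_div_of_nonneg_right (lp_le_hh N (G n) l) (hDpos n).le) hG.2
    simpa using t.div_const (zz (N l))
  · simpa using hG.2.div_const (ZZ N)
  · have e := (hp n).sq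
    have := hDpos n
    simp only [b, map_smul, LinearMap.smul_apply, smul_eq_mul]
    rw [← mul_assoc, ← mul_inv, inv_mul_le_iff₀ (by positivity)]
    linarith
  · rw [map_sum, LinearMap.sum_apply]
    simp only [map_smul, LinearMap.smul_apply, smul_eq_mul, hav]
    have e : ∀ i, w i * (1 - lp (N i) (G n) / dg (G n) / zz (N i)) =
        w i - lp (N i) (G n) / dg (G n) / ZZ N := fun i => by
      have := (hN.inf i).ne'
      simp only [w]
      field_simp
    simp only [e]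
    rw [Finset.sum_sub_distrib, hw1, hh, Finset.sum_div, Finset.sum_div]

theorem jmain (h0 : S_OM) (h1 : S_STD) (h2 : S_DIR) (h3 : S_TRF) (h4 : S_JFIN) (h5 : S_RES)
    (h6 : S_SHARP) : S_JMAIN := by
  intro K ι _ _ _ N s σ μ E hμ hx hRA hJ hE
  subst hμ
  obtain ⟨W⟩ := h0 K
  obtain ⟨G, κ₀, k1, hG, hG', hk⟩ := id hE
  obtain ⟨β, t, hS⟩ := h1 K ι N E.toFam W G hx hG hRA
  have hD := h2 K ι W N β t hS
  have inv : ∀ i a, N i (σ a) = N i a := fun i a => by rw [E.eig, rpow_one]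
  have linv : ∀ i φ, lg (N i) (s φ) = lg (N i) φ := fun i φ => by
    rw [E.toPer.lg_eq E.cmp, one_mul]
  obtain ⟨hU, a, ha, ha0⟩ := h6 K ι N s σ 1 E
  obtain ⟨i₀⟩ := E.ne
  obtain ⟨D₀⟩ := hD i₀
  have a1 : 1 ≤ dg a := h4 K ι N (N i₀) D₀ s σ E.cmp (inv i₀) hJ hE (hU i₀) a ha
  have nu : ∀ u : R K, IsUnit u → dg u = 0 := fun u hu => by
    obtain ⟨u', hu'⟩ := hu.exists_right_inv
    have := dg_mul (left_ne_zero_of_mul_eq_one hu') (right_ne_zero_of_mul_eq_one hu')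
    rw [hu', dg, MvPolynomial.totalDegree_one] at this
    omega
  obtain ⟨c, hc, a', rfl⟩ := WfDvdMonoid.exists_irreducible_factor
    (fun h => by have := nu a h; omega) ha.1
  have c0 : c ≠ 0 := hc.ne_zero
  have a0 : a' ≠ 0 := right_ne_zero_of_mul ha.1
  have hc0 : Nn N c = 0 := by
    rw [Nn_mul N c0 a0] at ha0
    linarith [E.pf c c0, E.pf a' a0]
  have c1 : 1 ≤ dg c := by
    by_contra h
    obtain ⟨k, rfl⟩ := dg_eq_zero (φ := c) (by omega)
    refine hc.not_isUnit ((IsUnit.mk0 k fun h0 => c0 ?_).map MvPolynomial.C)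
    simp [h0]
  by_cases hd : c ∣ s c
  swap
  · exact ⟨c, c1, h5 K ι W N β t hS G hG c (s c) hc.prime hc0 hd fun i => (linv i c).le⟩
  obtain ⟨u, hu⟩ := hd
  have u0 : u ≠ 0 := fun h => E.cmp.ne c0 (by rw [hu, h, mul_zero])
  have lu : ∀ i, lg (N i) u = 0 := fun i => by
    have := linv i c
    rw [hu, lg_mul _ c0 u0] at this
    linarith
  by_cases u1 : 1 ≤ dg u
  · exact ⟨u, u1, fun i => (lu i).le⟩
  obtain ⟨k, rfl⟩ := dg_eq_zero (φ := u) (by omega)
  refine ⟨c, c1, fun i => ?_⟩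
  obtain ⟨D⟩ := hD i
  obtain ⟨k0, m, hm, hκ⟩ := h3 K ι N (N i) D s σ E.cmp (inv i) hJ hE
  have e : D.κ (s c) = D.κ c := by
    obtain ⟨n, e1, e2⟩ := ((D.lin c c0).and (D.lin _ (E.cmp.ne c0))).exists
    have e3 : lg (D.w n) (s c) = lg (D.w n) c := by
      rw [hu, lg_mul _ c0 u0, lg_cc (D.wna n), add_zero]
    rw [e3, e1, linv] at e2
    exact_mod_cast (mul_right_cancel₀ (D.epos n).ne' (add_left_cancel e2)).symm
  have e4 := hκ c c0
  rw [e] at e4
  have k0' : (0 : ℝ) < D.κ (s (xx 0)) := by exact_mod_cast k0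
  have k2 : (0 : ℝ) ≤ D.κ c := Nat.cast_nonneg _
  by_contra h
  have := mul_pos k0' (not_le.1 h)
  nlinarith

theorem str3 (h1 : S_PERM) (h2 : S_RELD) (h3 : S_TRI) (h4 : S_SHARP) (h5 : S_TWO) (h6 : S_UST)
    (h7 : S_RAC) (h8 : S_ONE) (h9 : S_PEN0) (h10 : S_TOW) (h11 : S_THIN) (h12 : S_JGEN) :
    S_STR3 := by
  intro K ι _ _ _ N₀ s σ δ β hc hL b0 bδ hN₀
  obtain ⟨κ, _, N, m, μ, m1, hN, hP⟩ := h1 K ι N₀ s σ δ β hc hL b0 bδ hN₀
  obtain ⟨e1, e2, hE⟩ := h2 K κ N s σ δ β hc hL b0 bδ hN m μ m1 hP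
  have μ0 := hP.pos
  have δ0 : 0 < δ := one_pos.trans hL.one
  by_cases hi : Irrational (μ ^ 2)
  · have hi' : Irrational μ := Irrational.of_pow 2 hi
    have E := hE 1 le_rfl
    rw [mul_one, pow_one] at E
    have t2 : ∀ i, T2 (N i) ∧ RA (N i) := fun i => by
      refine (h3 K (N i) (E.na i) (E.inf i)).resolve_right fun h => hi' ?_
      obtain ⟨j, hj⟩ := exists_lg_xx (E.inf i)
      obtain ⟨r, hr⟩ := h _ (E.cmp.ne (xx_ne j))
      rw [E.toPer.lg_eq E.cmp, hj, mul_comm] at hr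
      exact ⟨r, (mul_left_cancel₀ (E.inf i).ne' hr).symm⟩
    obtain ⟨hu, a, ha, ha0⟩ := h4 K κ N _ _ _ E
    obtain ⟨i⟩ := E.ne
    exact ⟨m, m1, Or.inl (h6 K κ N _ _ _ E hi' t2 a
      (h5 K κ N _ _ _ E hi i (t2 i).1 (hu i) a ha) ha0)⟩
  obtain ⟨r, hr⟩ : ∃ r : ℚ, (r : ℝ) = μ ^ 2 := not_not.1 hi
  have E := hE 2 (by norm_num)
  have m2 : 1 ≤ m * 2 := by omega
  have q2 : qq (σ ^ (m * 2)) = qq σ ^ (m * 2) := (h10 K σ).2.2 _
  have f1 : μ ^ 2 * δ ^ (m * 2) = (qq σ : ℝ) ^ (m * 2) := by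
    rw [pow_mul, pow_mul, ← mul_pow, e1]
  have f2 : μ ^ 2 < δ ^ (m * 2) := by
    rw [pow_mul]; exact pow_lt_pow_left₀ e2 μ0.le two_ne_zero
  refine ⟨m * 2, m2, Or.inr ?_⟩
  by_cases hR : ∃ i, RA (N i)
  · obtain ⟨i, hi⟩ := hR
    refine Or.inr ?_
    rcases h7 K κ N _ _ _ E r hr.symm i hi with h | ⟨a, ha⟩
    · rw [q2, Nat.cast_pow, ← f1, sq (μ ^ 2)] at h
      exact absurd (mul_left_cancel₀ (pow_pos μ0 2).ne' h) f2.ne'
    have r0 : 0 < r := by
      have : (0 : ℝ) < r := hr ▸ pow_pos μ0 2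
      exact_mod_cast this
    have n0 : 0 < r.num := Rat.num_pos.2 r0
    have q1 : 1 ≤ qq σ := (h10 K σ).2.1
    have Q0 : (0 : ℤ) < qq (σ ^ (m * 2)) := by
      rw [q2]; exact_mod_cast pow_pos q1 _
    have a0 : 0 < a := by
      rw [ha] at n0
      exact (mul_pos_iff_of_pos_left Q0).1 n0
    obtain ⟨a, rfl⟩ := Int.eq_ofNat_of_zero_le a0.le
    refine ⟨a, r.den, by exact_mod_cast a0, ?_, ?_⟩
    · have g1 : (r.num : ℝ) = μ ^ 2 * r.den := by
        rw [← hr]; exact_mod_cast (Rat.mul_den_eq_num r).symm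
      have g2 : (r.num : ℝ) = (qq σ : ℝ) ^ (m * 2) * a := by
        rw [ha, q2]; push_cast; ring
      rw [g2, ← f1, mul_assoc] at g1
      exact mul_left_cancel₀ (pow_pos μ0 2).ne' g1
    · have g : r.num.natAbs = qq σ ^ (m * 2) * a := by
        rw [ha, q2, Int.natAbs_mul, Int.natAbs_natCast, Int.natAbs_natCast]
      have hd : qq σ ∣ r.num.natAbs := g ▸ (dvd_pow_self _ (by omega)).mul_right _
      exact (Nat.Coprime.coprime_dvd_left hd r.reduced).symm
  have hR' : ∀ i, ¬ RA (N i) := fun i hi => hR ⟨i, hi⟩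
  suffices h : ∃ u : R K, 1 ≤ dg u ∧ ∀ i, lg (N i) u ≤ 0 by
    obtain ⟨u, u1, hu⟩ := h
    exact Or.inl (h9 K κ N s σ δ β hc hL b0 bδ hN _ _ u m2 E.toPer u1 hu)
  refine (h8 K κ N _ _ _ E hR').elim id fun ⟨g1, g2⟩ => h12 K κ N _ _ _ E g1 hR' g2 ?_
  by_contra hn
  refine ((h11 K κ N s σ δ β hc hL b0 bδ hN).2.2 (m * 2) 1 fun G hG ε hε => ?_).not_gt
    (one_lt_pow₀ hL.one (by omega))
  by_contra hf
  obtain ⟨φ, hφ, h⟩ := extraction_of_frequently_atTop (not_eventually.1 hf)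
  have hd : ∀ n, (1 + ε) * dg (G (φ n)) ≤ dg ((s ^ (m * 2)) (G (φ n))) := fun n => (not_le.1 (h n)).le
  have p : ∀ n, (0 : ℝ) < dg (G (φ n)) := fun n => Nat.cast_pos.2 (hG.1 _)
  have t := hG.2.comp hφ.tendsto_atTop
  refine hn ⟨fun n => G (φ n), 1 + ε, by linarith, ⟨fun n => hG.1 _, t⟩,
    ⟨fun n => one_le_dg_map E.cmp.inj (hG.1 _), squeeze_zero
      (fun n => div_nonneg (hh_nonneg _ _) (Nat.cast_nonneg _)) (fun n => ?_) t⟩, hd⟩
  have e : hh N ((s ^ (m * 2)) (G (φ n))) = hh N (G (φ n)) := by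
    simp only [hh, lp, E.toPer.lg_eq E.cmp, g1, one_mul]
  rw [e]
  exact div_le_div_of_nonneg_left (hh_nonneg _ _) (p n) (by nlinarith [hd n, p n])

theorem top3 (h1 : S_ORB) (h2 : S_ORD) (h3 : S_FEK) (h4 : S_LIMIT) (h5 : S_VAL) (h6 : S_STR3)
    (h7 : S_UN3) (h8 : S_PEN3) (h9 : S_RATIO) (h10 : S_SMALL) : S_FINAL3 := by
  intro K _ _ F P hP q hq
  set s : R K →ₐ[K] R K := MvPolynomial.aeval F with hs
  have hx : ∀ i, s (xx i) = F i := fun i => MvPolynomial.aeval_X F i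
  set O : ℕ → Fin 2 → K := fun n => (fun a i => MvPolynomial.eval a (F i))^[n] P with hO
  have ho : Orb s O := fun n => by
    funext i
    simp only [hO, Function.iterate_succ_apply', ap, hx]
  have hz : ZD O := hP
  obtain ⟨-, inj, -, hm, -⟩ := h1 K s O ho hz
  obtain ⟨σ, hσ⟩ := ((h2 K).2.2.2.2 s inj).1
  have hq' : qq σ = q := by
    rw [hq, qq, TOP.range_eq hσ, show (fun i => io (s (xx i))) = fun i => io (F i) from
      funext fun i => by rw [hx]]
  obtain ⟨δ, hδ, hL⟩ := h3 K s inj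
  refine ⟨δ, ?_, fun h0 hE => ?_⟩
  · simp only [TOP.iter]
    exact hδ
  have hL := hL h0
  refine h4 K s O ho hz δ hL fun β₀ b1 b2 hf => ?_
  obtain ⟨ι, _, N, hN⟩ := h5 K s O ho hz β₀ ((β₀ + δ) / 2) b1 (by linarith) hf
  obtain ⟨m, m1, h⟩ := h6 K ι N s σ δ _ hσ hL (by linarith) (by linarith) hN
  have hδm : 1 < δ ^ m := one_lt_pow₀ h0 (by omega)
  refine ⟨m, m1, ?_⟩
  rcases h with h | h | ⟨a, b, a1, h, hc⟩
  · refine h7 K (s ^ m) _ (hm m m1).1 (hm m m1).2 _ hδm (fun n => ?_) h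
    rw [← pow_mul, ← pow_mul]
    exact hL.low _
  · exact h8 K (s ^ m) _ (hm m m1).1 (hm m m1).2 _ hδm h
  · have q2 := (h9 K ι N s σ δ _ hσ hL (by linarith) (by linarith) hN).2
    rcases lt_trichotomy δ (qq σ) with q1 | q1 | q1
    · exact absurd (hq' ▸ hc) (hE (hq' ▸ q1) (hq' ▸ q2) m a b m1 a1 h)
    · rw [q1] at h h0
      have e : qq σ ^ m * a = b := by exact_mod_cast h
      have : qq σ = 1 := hc.symm.eq_one_of_dvd
        (e ▸ (dvd_pow_self _ (by omega)).mul_right _)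
      rw [this] at h0
      simp at h0
    · exact absurd hf (h10 K s O ho hz σ δ β₀ hσ hL q1 b1 b2)

end Pool.Agent.KSP

end

end Part15

-- ======== part 16: row All3
section Part16

/-! Polynomial maps of the plane: all rows together. -/

namespace Pool.Agent.KSP

theorem final3 : S_FINAL3 :=
  have aEXL : S_EXL := exl
  have aEXTV : S_EXTV := extv
  have aUNIV : S_UNIV := univ
  have aDERL : S_DERL := derl
  have aDERV : S_DERV := derv aDERL
  have aOM : S_OM := om aEXL aUNIV aDERL aDERV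
  have aMODF : S_MODF := modf
  have aPSD : S_PSD := psd
  have aGAL : S_GAL := gal
  have aROOT : S_ROOT := root
  have aPENV : S_PENV := penv aGAL aROOT
  have aMINK : S_MINK := mink
  have aLEJA : S_LEJA := leja
  have aNEF : S_NEF := nef aPSD aGAL aMINK aLEJA
  have aVEC : S_VEC := vec aGAL aROOT aNEF
  have aGEN : S_GEN := gen
  have aKLA : S_KLA := kla aOM aGEN aVEC aPENV aPSD
  have aKLB : S_KLB := klb aOM aGEN aVEC aPENV aPSD
  have aKLC : S_KLC := klc
  have aKLD : S_KLD := kld aOM aGEN aVEC aPENV aPSD aROOT aKLC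
  have aTRA : S_TRA := tra
  have aTRM : S_TRM := trm aMODF
  have aTRI : S_TRI := tri aOM aGEN aTRA aTRM
  have aJAC : S_JAC := jacv aMODF
  have aPICK : S_PICK := pick aGAL aMODF
  have aLATA : S_LATA := lata
  have aLATT : S_LATT := latt aGAL aLATA
  have aRAT : S_RAT := rat
  have aCN1 : S_CN1 := cn1 aGAL aMODF aPICK aRAT
  have aCN2 : S_CN2 := cn2 aLATT aMINK
  have aCORE : S_CORE := core aOM aGEN aTRA aTRM aJAC aNEF aPENV aPSD aGAL aCN1 aCN2
  have aTOW : S_TOW := tow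
  have aEMB : S_EMB := emb aEXTV aTOW
  have aORD : S_ORD := ord
  have aORF : S_ORF := orf aORD
  have aDEN : S_DEN := den aEMB aORD
  have aWAP : S_WAP := wap
  have aGX : S_GX := gx
  have aTHIN : S_THIN := thin
  have aPERM : S_PERM := perm aTHIN aKLA aWAP aEMB
  have aSHA : S_SHA := sha aEMB aORD aORF aDEN aKLA aWAP
  have aSHARP : S_SHARP := sharp aSHA aDEN aORD
  have aRELA : S_RELA := rela aEXTV aTOW aORD
  have aRELB : S_RELB := relb aSHARP aRELA aGX aKLD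
  have aRELC : S_RELC := relc aSHARP aRELA aGX
  have aRELD : S_RELD := reld aTHIN aRELB aRELC aTOW
  have aDEF : S_DEF := defect aEMB aTOW
  have aGRP : S_GRP := grp
  have aRAC : S_RAC := rac aTRI aSHARP aDEF aGRP aTOW
  have aTWO : S_TWO := two aEMB aORD aDEN
  have aUST : S_UST := ust
  have aONE : S_ONE := one aCORE
  have aPEN0 : S_PEN0 := pen0 aKLB aTHIN aORD
  have aGAM : S_GAM := gam aPENV aPSD aGAL
  have aGLIN : S_GLIN := glin aGAL
  have aDIR : S_DIR :=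
    dir aGAM aGLIN sl (jk aMODF) (near sl (loc aGAL) (xz aMODF) aROOT) aROOT
  have aRES : S_RES := res aGAL aROOT aPSD sl rsl (rin aGAL aROOT aGAM aGLIN)
  have aJMAIN : S_JMAIN := jmain aOM (std aTRA aTRM aNEF aPENV aPSD aGAL) aDIR trf
    (jfin aEMB aORD aDEN trf (close aEMB)) aRES aSHARP
  have aSTR : S_STR3 :=
    str3 aPERM aRELD aTRI aSHARP aTWO aUST aRAC aONE aPEN0 aTOW aTHIN (jgen aGEN aJMAIN)
  have aHB : S_HB := hb
  have aFINI : S_FINI := fini
  have aORB : S_ORB := orb aFINI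
  have aDROP : S_DROP := drop aFINI aORB aHB
  have aSEQ : S_SEQ := seq
  have aULT : S_ULT := ult aHB
  have aVAL : S_VAL := val aSEQ aDROP aORB aHB aULT
  have aUN1 : S_UN1 := un1
  have aUN2 : S_UN2 := un2 aHB
  have aUN4 : S_UN4 := un4
  have aUN3 : S_UN3 := un3 aUN1 aUN2 aUN4 aORB aHB
  have aPEN1 : S_PEN1 := pen1 aEMB aORD
  have aPEN2 : S_PEN2 := pen2
  have aPEN3 : S_PEN3 := pen3 aPEN1 aPEN2 aHB
  have aFEK : S_FEK := fek
  have aLIMIT : S_LIMIT := limit aHB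
  have aRATIO : S_RATIO := ratio aTHIN aKLA aWAP aEMB aRELD
  have aDROP2 : S_DROP2 := drop2 aFINI aORB aHB rooth dep
  have aSMALL : S_SMALL :=
    small (val2 aSEQ aDROP aORB aHB) seq2 (ult2 aHB) aRATIO aDROP2 aFINI aORB aHB
  top3 aORB aORD aFEK aLIMIT aVAL aSTR aUN3 aPEN3 aRATIO aSMALL

end Pool.Agent.KSP

end Part16
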